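import Pool.Agent.R202.Rot

/-!
Probability measures on the circle: Fourier coefficients and the weak topology.
-/

set_option autoImplicit false

open MeasureTheory Filter Topology Set
open scoped ENNReal NNReal

namespace Pool.Agent.K3h9.GM

/-- the circle `ℝ / ℤ` -/
abbrev TT := UnitAddCircle

/-- the Fourier coefficient `∫ e(k x) dμ` -/
noncomputable def fc (μ : Measure TT) (k : ℤ) : ℂ := ∫ x, (fourier k x : ℂ) ∂μ

/-- the image of `μ` under `x ↦ m x` -/
noncomputable def img (m : ℕ) (μ : ProbabilityMeasure TT) : ProbabilityMeasure TT :=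
  μ.map (f := fun x => m • x) (continuous_const_smul m).aemeasurable

/-- the set of the probability measures invariant under `x ↦ p x` -/
def Inv (p : ℕ) : Set (ProbabilityMeasure TT) := {μ | img p μ = μ}

theorem coe_img (m : ℕ) (μ : ProbabilityMeasure TT) :
    (img m μ : Measure TT) = (μ : Measure TT).map (fun x => m • x) := rfl

theorem measurable_smul (m : ℕ) : Measurable (fun x : TT => m • x) :=
  (continuous_const_smul m).measurable

theorem fourier_nsmul (k : ℤ) (m : ℕ) (x : TT) :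
    (fourier k (m • x) : ℂ) = fourier (k * m) x := by
  rw [fourier_apply, fourier_apply]
  congr 2
  rw [mul_smul, natCast_zsmul]

theorem fc_map (m : ℕ) (μ : Measure TT) (k : ℤ) :
    fc (μ.map (fun x => m • x)) k = fc μ (k * m) := by
  unfold fc
  rw [integral_map (measurable_smul m).aemeasurable
    (fourier k).continuous.aestronglyMeasurable]
  congr 1
  funext x
  exact fourier_nsmul k m x

theorem fc_img (m : ℕ) (μ : ProbabilityMeasure TT) (k : ℤ) :
    fc (img m μ : Measure TT) k = fc (μ : Measure TT) (k * m) := by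
  rw [coe_img, fc_map]

theorem fc_zero (μ : ProbabilityMeasure TT) : fc (μ : Measure TT) 0 = 1 := by
  unfold fc
  simp

theorem norm_fc_le (μ : ProbabilityMeasure TT) (k : ℤ) : ‖fc (μ : Measure TT) k‖ ≤ 1 := by
  unfold fc
  have h1 : ‖∫ x, (fourier k x : ℂ) ∂(μ : Measure TT)‖ ≤ 1 * (μ : Measure TT).real univ := by
    refine norm_integral_le_of_norm_le_const (Eventually.of_forall fun x => ?_)
    rw [fourier_apply, Circle.norm_coe]
  simpa using h1

theorem ext_fc {μ ν : ProbabilityMeasure TT}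
    (h : ∀ k : ℤ, fc (μ : Measure TT) k = fc (ν : Measure TT) k) : μ = ν := by
  apply Subtype.ext
  have h1 : (μ : Measure TT) = (ν : Measure TT) := Pool.Agent.R202.ext_fourier h
  exact h1

theorem continuous_fc (k : ℤ) : Continuous fun μ : ProbabilityMeasure TT => fc (μ : Measure TT) k := by
  rw [continuous_iff_continuousAt]
  intro μ
  have h1 := (ProbabilityMeasure.tendsto_iff_forall_integral_rclike_tendsto ℂ
    (F := 𝓝 μ) (μs := fun ν : ProbabilityMeasure TT => ν) (μ := μ)).mp tendsto_id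
  exact h1 (BoundedContinuousFunction.mkOfCompact (fourier k))

/-- the Fourier coefficients embed the space of probability measures -/
theorem isClosedEmbedding_fc :
    IsClosedEmbedding fun (μ : ProbabilityMeasure TT) (k : ℤ) => fc (μ : Measure TT) k := by
  apply Continuous.isClosedEmbedding
  · exact continuous_pi fun k => continuous_fc k
  · intro μ ν h
    exact ext_fc fun k => congrFun h k

/-- neighbourhoods in terms of Fourier coefficients -/
theorem nhds_fc {κ : ProbabilityMeasure TT} {W : Set (ProbabilityMeasure TT)} (hW : W ∈ 𝓝 κ) :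
    ∃ (K : ℕ) (ε : ℝ), 0 < ε ∧ ∀ μ : ProbabilityMeasure TT,
      (∀ k : ℤ, k ≠ 0 → |k| ≤ K → ‖fc (μ : Measure TT) k - fc (κ : Measure TT) k‖ < ε) → μ ∈ W := by
  rw [isClosedEmbedding_fc.isInducing.nhds_eq_comap, mem_comap] at hW
  obtain ⟨V, hV, hVW⟩ := hW
  rw [nhds_pi, Filter.mem_pi] at hV
  obtain ⟨I, hI, t, ht, htV⟩ := hV
  have h1 : ∀ k : ℤ, ∃ ε : ℝ, 0 < ε ∧ Metric.ball (fc (κ : Measure TT) k) ε ⊆ t k := fun k =>
    Metric.mem_nhds_iff.mp (ht k)
  choose r hr hrt using h1
  obtain ⟨K, hK⟩ : ∃ K : ℕ, ∀ k ∈ I, |k| ≤ K := by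
    obtain ⟨B, hB⟩ := (hI.image fun k : ℤ => |k|).bddAbove
    exact ⟨B.toNat, fun k hk => (hB ⟨k, hk, rfl⟩).trans (Int.self_le_toNat B)⟩
  obtain ⟨ε, hε, hεr⟩ : ∃ ε : ℝ, 0 < ε ∧ ∀ k ∈ I, ε ≤ r k := by
    by_cases hne : I.Nonempty
    · obtain ⟨k0, _, hmin⟩ := Set.exists_min_image I r hI hne
      exact ⟨r k0, hr k0, fun k hk => hmin k hk⟩
    · refine ⟨1, one_pos, fun k hk => absurd ⟨k, hk⟩ hne⟩
  refine ⟨K, ε, hε, fun μ hμ => hVW ?_⟩
  apply htV
  intro k hk
  apply hrt k
  rw [Metric.mem_ball, dist_eq_norm]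
  by_cases h0 : k = 0
  · subst h0
    change ‖fc (μ : Measure TT) 0 - fc (κ : Measure TT) 0‖ < r 0
    rw [fc_zero, fc_zero, sub_self, norm_zero]
    exact hr 0
  · exact (hμ k h0 (hK k hk)).trans_le (hεr k hk)

/-- the measures with prescribed Fourier coefficients up to `ε` form an open set -/
theorem isOpen_fc (k : ℤ) (c : ℂ) (ε : ℝ) :
    IsOpen {μ : ProbabilityMeasure TT | ‖fc (μ : Measure TT) k - c‖ < ε} :=
  isOpen_lt (((continuous_fc k).sub continuous_const).norm) continuous_const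

theorem fc_haar {k : ℤ} (hk : k ≠ 0) : fc (AddCircle.haarAddCircle (T := (1 : ℝ))) k = 0 := by
  unfold fc
  have h1 : ∫ x : TT, (fourier k x : ℂ) ∂AddCircle.haarAddCircle =
      ∫ x : TT, (fourier k (x + ((1 / 2 / k : ℝ) : TT)) : ℂ) ∂AddCircle.haarAddCircle :=
    (integral_add_right_eq_self (μ := AddCircle.haarAddCircle (T := (1 : ℝ)))
      (fun x : TT => (fourier k x : ℂ)) _).symm
  have h2 : (fun x : TT => (fourier k (x + ((1 / 2 / k : ℝ) : TT)) : ℂ)) =
      fun x => -(fourier k x : ℂ) := by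
    funext x
    exact fourier_add_half_inv_index hk one_pos x
  rw [h2, integral_neg] at h1
  have h3 : (2 : ℂ) * ∫ x : TT, (fourier k x : ℂ) ∂AddCircle.haarAddCircle = 0 := by
    linear_combination h1
  simpa using h3

end Pool.Agent.K3h9.GM
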