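import Pool.Agent.K3h9.GM.Dense

/-!
Invariant measures built from random digits: all large frequencies are small.
-/

set_option autoImplicit false

open MeasureTheory Filter Topology Set
open scoped ENNReal NNReal Real

namespace Pool.Agent.K3h9.GM

/-- `(1 + e(x)) / 2` -/
noncomputable def hh (x : ℝ) : ℂ := (1 + ee x) / 2

theorem norm_hh (x : ℝ) : ‖hh x‖ = |Real.cos (π * x)| := by
  have h1 : hh x = Complex.exp (((π * x : ℝ) : ℂ) * Complex.I) * ((Real.cos (π * x) : ℝ) : ℂ) := by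
    unfold hh ee
    rw [Complex.ofReal_cos, Complex.cos, mul_div_assoc', mul_add, ← Complex.exp_add,
      ← Complex.exp_add]
    have h2 : ((π * x : ℝ) : ℂ) * Complex.I + ((π * x : ℝ) : ℂ) * Complex.I =
        ((2 * π * x : ℝ) : ℂ) * Complex.I := by
      push_cast
      ring
    have h3 : ((π * x : ℝ) : ℂ) * Complex.I + -((π * x : ℝ) : ℂ) * Complex.I = 0 := by ring
    rw [h2, h3, Complex.exp_zero, add_comm]
  rw [h1, norm_mul, Complex.norm_exp_ofReal_mul_I, one_mul, Complex.norm_real, Real.norm_eq_abs]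

theorem norm_hh_le (x : ℝ) : ‖hh x‖ ≤ 1 := by
  rw [norm_hh]
  exact Real.abs_cos_le_one _

theorem norm_hh_sub (x : ℝ) : ‖hh x - 1‖ ≤ π * |x| := by
  have h1 : hh x - 1 = (ee x - 1) / 2 := by
    unfold hh
    ring
  rw [h1, norm_div, Complex.norm_ofNat, div_le_iff₀ two_pos]
  refine (norm_ee_sub_one x).trans (le_of_eq ?_)
  ring

theorem hh_add_int (x : ℝ) (m : ℤ) : hh (x + m) = hh x := by
  unfold hh
  rw [ee_add_int]

/-- the product of the `(1 + e(N P^j / (P^M - 1))) / 2` -/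
noncomputable def Ph (P M : ℕ) (N : ℤ) : ℂ :=
  ∏ j ∈ Finset.range M, hh (N * ((P : ℝ) ^ j / ((P : ℝ) ^ M - 1)))

theorem pow_sub_pos {P M : ℕ} (hP : 2 ≤ P) (hM : 0 < M) : (0 : ℝ) < (P : ℝ) ^ M - 1 := by
  have hP' : (1 : ℝ) < P := by exact_mod_cast (by omega : 1 < P)
  have := one_lt_pow₀ hP' hM.ne'
  linarith

theorem Ph_mul {P M : ℕ} (hP : 2 ≤ P) (hM : 0 < M) (N : ℤ) : Ph P M (N * P) = Ph P M N := by
  have h0 := pow_sub_pos hP hM
  obtain ⟨m, rfl⟩ : ∃ m, M = m + 1 := ⟨M - 1, by omega⟩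
  unfold Ph
  have h1 : ∀ j, hh (((N * P : ℤ) : ℝ) * ((P : ℝ) ^ j / ((P : ℝ) ^ (m + 1) - 1))) =
      hh (N * ((P : ℝ) ^ (j + 1) / ((P : ℝ) ^ (m + 1) - 1))) := by
    intro j
    congr 1
    push_cast
    ring
  simp only [h1]
  rw [Finset.prod_range_succ, Finset.prod_range_succ' (fun j =>
    hh (N * ((P : ℝ) ^ j / ((P : ℝ) ^ (m + 1) - 1))))]
  congr 1
  rw [← hh_add_int (N * ((P : ℝ) ^ 0 / ((P : ℝ) ^ (m + 1) - 1))) N]
  congr 1
  field_simp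
  ring

theorem Ph_pow {P M : ℕ} (hP : 2 ≤ P) (hM : 0 < M) (N : ℤ) (t : ℕ) :
    Ph P M (N * (P : ℤ) ^ t) = Ph P M N := by
  induction t with
  | zero => simp
  | succ t ih => rw [pow_succ, ← mul_assoc, Ph_mul hP hM, ih]

theorem norm_prod_sub_one {ι : Type*} (s : Finset ι) (u : ι → ℂ) (hu : ∀ i, ‖u i‖ ≤ 1) :
    ‖∏ i ∈ s, u i - 1‖ ≤ ∑ i ∈ s, ‖u i - 1‖ := by
  classical
  induction s using Finset.induction_on with
  | empty => simp
  | insert a s ha ih =>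
    rw [Finset.prod_insert ha, Finset.sum_insert ha]
    have h1 : u a * ∏ i ∈ s, u i - 1 = (u a - 1) + u a * (∏ i ∈ s, u i - 1) := by ring
    rw [h1]
    refine (norm_add_le _ _).trans (add_le_add le_rfl ?_)
    rw [norm_mul]
    calc ‖u a‖ * ‖∏ i ∈ s, u i - 1‖ ≤ 1 * ‖∏ i ∈ s, u i - 1‖ := by
          gcongr
          exact hu a
      _ ≤ _ := by rw [one_mul]; exact ih

theorem norm_Ph_sub {P M : ℕ} (hP : 2 ≤ P) (hM : 0 < M) (N : ℤ) :
    ‖Ph P M N - 1‖ ≤ π * |(N : ℝ)| * (2 / P) := by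
  have h0 := pow_sub_pos hP hM
  have hP' : (2 : ℝ) ≤ P := by exact_mod_cast hP
  unfold Ph
  refine (norm_prod_sub_one _ _ fun j => norm_hh_le _).trans ?_
  refine (Finset.sum_le_sum fun j _ => norm_hh_sub _).trans ?_
  have h1 : ∀ j ∈ Finset.range M, π * |(N : ℝ) * ((P : ℝ) ^ j / ((P : ℝ) ^ M - 1))| =
      π * |(N : ℝ)| / ((P : ℝ) ^ M - 1) * (P : ℝ) ^ j := by
    intro j _
    rw [abs_mul, abs_of_nonneg (by positivity : 0 ≤ (P : ℝ) ^ j / ((P : ℝ) ^ M - 1))]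
    ring
  rw [Finset.sum_congr rfl h1, ← Finset.mul_sum, geom_sum_eq (by linarith)]
  have h2 : π * |(N : ℝ)| / ((P : ℝ) ^ M - 1) * (((P : ℝ) ^ M - 1) / ((P : ℝ) - 1)) =
      π * |(N : ℝ)| * (1 / ((P : ℝ) - 1)) := by
    field_simp
  have h3 : 1 / ((P : ℝ) - 1) ≤ 2 / P := by
    rw [div_le_div_iff₀ (by linarith) (by linarith)]
    linarith
  rw [h2]
  exact mul_le_mul_of_nonneg_left h3 (by positivity)

/-- the number with the digits `1` at the places of `A` -/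
noncomputable def zz (P M : ℕ) (A : Finset ℕ) : ℝ := ∑ j ∈ A, (P : ℝ) ^ j / ((P : ℝ) ^ M - 1)

theorem ee_sum {ι : Type*} (s : Finset ι) (f : ι → ℝ) : ee (∑ i ∈ s, f i) = ∏ i ∈ s, ee (f i) := by
  classical
  induction s using Finset.induction_on with
  | empty => simp [ee_zero]
  | insert a s ha ih => rw [Finset.sum_insert ha, Finset.prod_insert ha, ee_add, ih]

theorem Ph_eq (P M : ℕ) (N : ℤ) :
    Ph P M N = ((2 : ℂ) ^ M)⁻¹ * ∑ A ∈ (Finset.range M).powerset, ee (N * zz P M A) := by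
  unfold Ph hh
  rw [Finset.prod_div_distrib, Finset.prod_const, Finset.card_range, div_eq_inv_mul,
    Finset.prod_one_add]
  congr 1
  refine Finset.sum_congr rfl fun A _ => ?_
  unfold zz
  rw [Finset.mul_sum, ee_sum]

theorem zz_Per {p L M h : ℕ} {x : ℝ} (hx : Per p h x) (hL : h ∣ L) (hp : 2 ≤ p) (hL0 : 0 < L)
    (hM : 0 < M) (A : Finset ℕ) : Per p (L * M) (x + zz (p ^ L) M A) := by
  have hP : 2 ≤ p ^ L := hp.trans (Nat.le_self_pow hL0.ne' p)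
  have h0 := pow_sub_pos hP hM
  obtain ⟨l, rfl⟩ := hL
  obtain ⟨m, hm⟩ := hx
  have h1 : ∀ t : ℕ, ∃ m' : ℤ, (p : ℝ) ^ (h * t) * x = x + m' := by
    intro t
    induction t with
    | zero => exact ⟨0, by simp⟩
    | succ t ih =>
      obtain ⟨m', hm'⟩ := ih
      refine ⟨(p : ℤ) ^ (h * t) * m + m', ?_⟩
      rw [Nat.mul_succ, pow_add, mul_assoc, hm, mul_add, hm']
      push_cast
      ring
  obtain ⟨m', hm'⟩ := h1 (l * M)
  have h2 : ((p : ℝ) ^ (h * l * M) - 1) * zz (p ^ (h * l)) M A =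
      ((∑ j ∈ A, ((p : ℤ) ^ (h * l)) ^ j : ℤ) : ℝ) := by
    unfold zz
    rw [← Finset.sum_div]
    have h3 : (((p ^ (h * l) : ℕ) : ℝ)) ^ M - 1 = (p : ℝ) ^ (h * l * M) - 1 := by
      rw [pow_mul (p : ℝ) (h * l) M]
      push_cast
      rfl
    rw [h3] at h0 ⊢
    rw [mul_div_cancel₀ _ h0.ne']
    push_cast
    rfl
  refine ⟨m' + ∑ j ∈ A, ((p : ℤ) ^ (h * l)) ^ j, ?_⟩
  have h4 : (p : ℝ) ^ (h * l * M) * (x + zz (p ^ (h * l)) M A) = (p : ℝ) ^ (h * (l * M)) * x +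
      zz (p ^ (h * l)) M A + ((p : ℝ) ^ (h * l * M) - 1) * zz (p ^ (h * l)) M A := by
    rw [← mul_assoc h l M]
    ring
  rw [h4, hm', h2]
  push_cast
  ring

/-- the measure with random digits around the periodic point `x` -/
noncomputable def beta (p L M : ℕ) (hL : 0 < L) (hM : 0 < M) (x : ℝ) : ProbabilityMeasure TT :=
  avg ((Finset.range M).powerset ×ˢ Finset.range (L * M))
    (Finset.Nonempty.product ⟨∅, Finset.empty_mem_powerset _⟩
      (Finset.nonempty_range_iff.mpr (Nat.mul_pos hL hM).ne'))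
    fun w => (((p : ℝ) ^ w.2 * (x + zz (p ^ L) M w.1) : ℝ) : TT)

theorem fc_beta1 (p L M : ℕ) (hL : 0 < L) (hM : 0 < M) (x : ℝ) (k : ℤ) :
    fc (beta p L M hL hM x : Measure TT) k =
      ((2 : ℂ) ^ M)⁻¹ * ∑ A ∈ (Finset.range M).powerset, AA p (L * M) k (x + zz (p ^ L) M A) := by
  unfold beta AA
  rw [fc_avg, Finset.sum_product, Finset.card_product, Finset.card_powerset, Finset.card_range,
    Finset.card_range, ← Finset.mul_sum]
  have h1 : (((2 ^ M * (L * M) : ℕ) : ℂ))⁻¹ = ((2 : ℂ) ^ M)⁻¹ * (((L * M : ℕ) : ℂ))⁻¹ := by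
    push_cast
    rw [mul_inv]
  rw [h1, mul_assoc]
  simp only [fourier_real]

theorem fc_beta2 (p L M : ℕ) (hL : 0 < L) (hM : 0 < M) (x : ℝ) (k : ℤ) :
    fc (beta p L M hL hM x : Measure TT) k =
      ((L * M : ℕ) : ℂ)⁻¹ * ∑ i ∈ Finset.range (L * M), ee (k * ((p : ℝ) ^ i * x)) *
        Ph (p ^ L) M (k * (p : ℤ) ^ i) := by
  rw [fc_beta1]
  unfold AA
  rw [← Finset.mul_sum, Finset.sum_comm, mul_left_comm]
  congr 1
  rw [Finset.mul_sum]
  refine Finset.sum_congr rfl fun i _ => ?_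
  rw [Ph_eq, mul_left_comm (ee _)]
  congr 1
  rw [Finset.mul_sum]
  refine Finset.sum_congr rfl fun A _ => ?_
  rw [← ee_add]
  congr 1
  push_cast
  ring

theorem beta_mem_Inv {p L M h : ℕ} {x : ℝ} (hx : Per p h x) (hL : h ∣ L) (hp : 2 ≤ p) (hL0 : 0 < L)
    (hM : 0 < M) : beta p L M hL0 hM x ∈ Inv p := by
  apply img_eq_of_fc
  intro k
  rw [fc_beta1, fc_beta1]
  congr 1
  refine Finset.sum_congr rfl fun A _ => ?_
  rw [AA_mul (zz_Per hx hL hp hL0 hM A)]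

theorem sum_Ph {p L M : ℕ} (hp : 2 ≤ p) (hL : 0 < L) (hM : 0 < M) (k : ℤ) (F : ℂ → ℝ) :
    ∑ i ∈ Finset.range (L * M), F (Ph (p ^ L) M (k * (p : ℤ) ^ i)) =
      M * ∑ o ∈ Finset.range L, F (Ph (p ^ L) M (k * (p : ℤ) ^ o)) := by
  have hP : 2 ≤ p ^ L := hp.trans (Nat.le_self_pow hL.ne' p)
  rw [sum_range_mul]
  have h1 : ∀ t ∈ Finset.range M, ∑ o ∈ Finset.range L, F (Ph (p ^ L) M (k * (p : ℤ) ^ (L * t + o))) =
      ∑ o ∈ Finset.range L, F (Ph (p ^ L) M (k * (p : ℤ) ^ o)) := by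
    intro t _
    refine Finset.sum_congr rfl fun o _ => ?_
    have h2 : k * (p : ℤ) ^ (L * t + o) = k * (p : ℤ) ^ o * ((p ^ L : ℕ) : ℤ) ^ t := by
      rw [pow_add, pow_mul]
      push_cast
      ring
    rw [h2, Ph_pow hP hM]
  rw [Finset.sum_congr rfl h1, Finset.sum_const, Finset.card_range, nsmul_eq_mul]

theorem beta_near {p L M : ℕ} (hp : 2 ≤ p) (hL : 0 < L) (hM : 0 < M) (x : ℝ) (k : ℤ) :
    ‖fc (beta p L M hL hM x : Measure TT) k - AA p (L * M) k x‖ ≤ 2 * π * |(k : ℝ)| / L := by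
  have hP : 2 ≤ p ^ L := hp.trans (Nat.le_self_pow hL.ne' p)
  have hL' : (0 : ℝ) < L := by exact_mod_cast hL
  have hM' : (0 : ℝ) < M := by exact_mod_cast hM
  have hP' : (0 : ℝ) < ((p ^ L : ℕ) : ℝ) := by positivity
  rw [fc_beta2]
  unfold AA
  rw [← mul_sub, ← Finset.sum_sub_distrib, norm_mul, norm_inv, Complex.norm_natCast]
  have h1 : ‖∑ i ∈ Finset.range (L * M), (ee (k * ((p : ℝ) ^ i * x)) *
      Ph (p ^ L) M (k * (p : ℤ) ^ i) - ee (k * ((p : ℝ) ^ i * x)))‖ ≤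
      ∑ i ∈ Finset.range (L * M), ‖Ph (p ^ L) M (k * (p : ℤ) ^ i) - 1‖ := by
    refine (norm_sum_le _ _).trans (Finset.sum_le_sum fun i _ => ?_)
    have h2 : ee (k * ((p : ℝ) ^ i * x)) * Ph (p ^ L) M (k * (p : ℤ) ^ i) -
        ee (k * ((p : ℝ) ^ i * x)) = ee (k * ((p : ℝ) ^ i * x)) * (Ph (p ^ L) M (k * (p : ℤ) ^ i) - 1) := by
      ring
    rw [h2, norm_mul, norm_ee, one_mul]
  rw [sum_Ph hp hL hM k (fun z => ‖z - 1‖)] at h1
  have h3 : ∑ o ∈ Finset.range L, ‖Ph (p ^ L) M (k * (p : ℤ) ^ o) - 1‖ ≤ 2 * π * |(k : ℝ)| := by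
    have h4 : ∀ o ∈ Finset.range L, ‖Ph (p ^ L) M (k * (p : ℤ) ^ o) - 1‖ ≤
        2 * π * |(k : ℝ)| / ((p ^ L : ℕ) : ℝ) * (p : ℝ) ^ o := by
      intro o _
      refine (norm_Ph_sub hP hM _).trans (le_of_eq ?_)
      push_cast
      rw [abs_mul, abs_of_nonneg (by positivity : (0 : ℝ) ≤ (p : ℝ) ^ o)]
      ring
    refine (Finset.sum_le_sum h4).trans ?_
    rw [← Finset.mul_sum]
    calc 2 * π * |(k : ℝ)| / ((p ^ L : ℕ) : ℝ) * ∑ o ∈ Finset.range L, (p : ℝ) ^ o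
        ≤ 2 * π * |(k : ℝ)| / ((p ^ L : ℕ) : ℝ) * (p : ℝ) ^ L := by
          gcongr
          exact geom_le hp L
      _ = 2 * π * |(k : ℝ)| := by
          push_cast
          field_simp
  have h5 := h1.trans (mul_le_mul_of_nonneg_left h3 hM'.le)
  calc ((L * M : ℕ) : ℝ)⁻¹ * _ ≤ ((L * M : ℕ) : ℝ)⁻¹ * (M * (2 * π * |(k : ℝ)|)) := by gcongr
    _ = 2 * π * |(k : ℝ)| / L := by
        push_cast
        field_simp

theorem beta_far {p L M : ℕ} (hp : 2 ≤ p) (hL : 0 < L) (hM : 0 < M) (x : ℝ) (k : ℤ) {η : ℝ}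
    (h : ∀ o < L, ‖Ph (p ^ L) M (k * (p : ℤ) ^ o)‖ < η) :
    ‖fc (beta p L M hL hM x : Measure TT) k‖ < η := by
  have hL' : (0 : ℝ) < L := by exact_mod_cast hL
  have hM' : (0 : ℝ) < M := by exact_mod_cast hM
  rw [fc_beta2, norm_mul, norm_inv, Complex.norm_natCast]
  have h1 : ‖∑ i ∈ Finset.range (L * M), (ee (k * ((p : ℝ) ^ i * x)) *
      Ph (p ^ L) M (k * (p : ℤ) ^ i))‖ ≤
      ∑ i ∈ Finset.range (L * M), ‖Ph (p ^ L) M (k * (p : ℤ) ^ i)‖ := by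
    refine (norm_sum_le _ _).trans (Finset.sum_le_sum fun i _ => ?_)
    rw [norm_mul, norm_ee, one_mul]
  rw [sum_Ph hp hL hM k (fun z => ‖z‖)] at h1
  have h3 : ∑ o ∈ Finset.range L, ‖Ph (p ^ L) M (k * (p : ℤ) ^ o)‖ < L * η := by
    have h4 := Finset.sum_lt_sum_of_nonempty (s := Finset.range L) (by simpa using hL.ne')
      (fun o ho => h o (Finset.mem_range.mp ho))
    refine h4.trans_eq ?_
    rw [Finset.sum_const, Finset.card_range, nsmul_eq_mul]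
  calc ((L * M : ℕ) : ℝ)⁻¹ * _ ≤ ((L * M : ℕ) : ℝ)⁻¹ *
        (M * ∑ o ∈ Finset.range L, ‖Ph (p ^ L) M (k * (p : ℤ) ^ o)‖) := by gcongr
    _ < ((L * M : ℕ) : ℝ)⁻¹ * (M * (L * η)) := by
        have : (0 : ℝ) < ((L * M : ℕ) : ℝ)⁻¹ := by
          push_cast
          positivity
        gcongr
    _ = η := by
        push_cast
        field_simp

end Pool.Agent.K3h9.GM
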