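import Pool.Agent.K3h9.GM.Beta

/-!
Counting the frequencies `k p^o Q^n` at which the products are large.
-/

set_option autoImplicit false

open MeasureTheory Filter Topology Set
open scoped ENNReal NNReal Real

namespace Pool.Agent.K3h9.GM

/-- `|cos (π x)|` -/
noncomputable def gg (x : ℝ) : ℝ := |Real.cos (π * x)|

theorem gg_nonneg (x : ℝ) : 0 ≤ gg x := abs_nonneg _

theorem gg_le_one (x : ℝ) : gg x ≤ 1 := Real.abs_cos_le_one _

theorem gg_neg (x : ℝ) : gg (-x) = gg x := by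
  unfold gg
  rw [mul_neg, Real.cos_neg]

theorem gg_add_int (x : ℝ) (m : ℤ) : gg (x + m) = gg x := by
  unfold gg
  rw [mul_add, mul_comm π (m : ℝ), Real.cos_add_int_mul_pi, abs_mul]
  have : |((-1 : ℝ) ^ m)| = 1 := by
    rw [abs_zpow, abs_neg, abs_one, one_zpow]
  rw [this, one_mul]

theorem continuous_gg : Continuous gg := by
  unfold gg
  fun_prop

/-- the limit product -/
noncomputable def ff (P J : ℕ) (x : ℝ) : ℝ := ∏ i ∈ Finset.range J, gg (x / (P : ℝ) ^ (i + 1))

theorem ff_nonneg (P J : ℕ) (x : ℝ) : 0 ≤ ff P J x := Finset.prod_nonneg fun _ _ => gg_nonneg _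

theorem ff_le_one (P J : ℕ) (x : ℝ) : ff P J x ≤ 1 :=
  Finset.prod_le_one (fun _ _ => gg_nonneg _) fun _ _ => gg_le_one _

theorem ff_add {P J : ℕ} (hP : 0 < P) (x : ℝ) (m : ℤ) : ff P J (x + (P : ℝ) ^ J * m) = ff P J x := by
  have hP' : (P : ℝ) ≠ 0 := by exact_mod_cast hP.ne'
  unfold ff
  refine Finset.prod_congr rfl fun i hi => ?_
  rw [Finset.mem_range] at hi
  have h1 : (x + (P : ℝ) ^ J * m) / (P : ℝ) ^ (i + 1) =
      x / (P : ℝ) ^ (i + 1) + (((P : ℤ) ^ (J - (i + 1)) * m : ℤ) : ℝ) := by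
    have h2 : (P : ℝ) ^ J = (P : ℝ) ^ (J - (i + 1)) * (P : ℝ) ^ (i + 1) := by
      rw [← pow_add]
      congr 1
      omega
    rw [h2]
    push_cast
    field_simp
  rw [h1, gg_add_int]

theorem ff_succ (P J : ℕ) (x : ℝ) : ff P (J + 1) x = ff P J x * gg (x / (P : ℝ) ^ (J + 1)) := by
  unfold ff
  rw [Finset.prod_range_succ]

theorem gg_far {x c : ℝ} (hc0 : 0 ≤ c) (h : c ≤ |x - round x|) : gg x ≤ Real.cos (π * c) := by
  have h1 : gg x = gg (x - round x) := by
    have := gg_add_int (x - round x) (round x)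
    rw [sub_add_cancel] at this
    exact this
  have h2 := abs_sub_round x
  have hpi := Real.pi_pos
  have h3 : gg (x - round x) = Real.cos (π * |x - round x|) := by
    unfold gg
    rw [← Real.cos_abs (π * (x - round x)), abs_mul, abs_of_pos hpi, abs_of_nonneg]
    apply Real.cos_nonneg_of_mem_Icc
    constructor
    · have : 0 ≤ π * |x - round x| := by positivity
      linarith
    · nlinarith
  rw [h1, h3]
  apply Real.cos_le_cos_of_nonneg_of_le_pi
  · positivity
  · nlinarith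
  · gcongr

/-- shifts by multiples of `1 / P`: at most one value is close to `1` -/
theorem sum_gg {P : ℕ} (hP : 2 ≤ P) (T : ℕ) (y : ℝ) :
    ∑ d ∈ Finset.range P, gg (y + (d : ℝ) / P) ^ T ≤ 1 + P * Real.cos (π * (1 / (2 * P))) ^ T := by
  have hP' : (2 : ℝ) ≤ P := by exact_mod_cast hP
  have hP0 : (0 : ℝ) < P := by linarith
  set c : ℝ := Real.cos (π * (1 / (2 * P))) with hc
  have hc0 : 0 ≤ c := by
    apply Real.cos_nonneg_of_mem_Icc
    have hpi := Real.pi_pos
    constructor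
    · have : 0 ≤ π * (1 / (2 * (P : ℝ))) := by positivity
      linarith
    · have : 1 / (2 * (P : ℝ)) ≤ 1 / 2 := by
        rw [div_le_div_iff₀ (by positivity) (by norm_num)]
        linarith
      nlinarith
  set near : ℕ → Prop := fun d => |(y + (d : ℝ) / P) - round (y + (d : ℝ) / P)| < 1 / (2 * P) with hnear
  classical
  have h1 : ∀ d ∈ Finset.range P, gg (y + (d : ℝ) / P) ^ T ≤ (if near d then 1 else 0) + c ^ T := by
    intro d _
    split_ifs with h
    · have := pow_le_one₀ (n := T) (gg_nonneg (y + (d : ℝ) / P)) (gg_le_one _)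
      have h2 : 0 ≤ c ^ T := by positivity
      linarith
    · rw [zero_add]
      simp only [hnear, not_lt] at h
      have h3 := gg_far (by positivity) h
      exact pow_le_pow_left₀ (gg_nonneg _) h3 T
  refine (Finset.sum_le_sum h1).trans ?_
  rw [Finset.sum_add_distrib, Finset.sum_const, Finset.card_range, nsmul_eq_mul]
  gcongr
  rw [← Finset.sum_filter, Finset.sum_const, nsmul_eq_mul, mul_one]
  have h2 : ((Finset.range P).filter near).card ≤ 1 := by
    rw [Finset.card_le_one]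
    intro d hd d' hd'
    rw [Finset.mem_filter, Finset.mem_range] at hd hd'
    obtain ⟨hd1, hd2⟩ := hd
    obtain ⟨hd1', hd2'⟩ := hd'
    simp only [hnear] at hd2 hd2'
    set m := round (y + (d : ℝ) / P)
    set m' := round (y + (d' : ℝ) / P)
    have h3 : |((d : ℝ) - d') - P * ((m : ℝ) - m')| < 1 := by
      have h4 : ((d : ℝ) - d') - P * ((m : ℝ) - m') =
          P * ((y + (d : ℝ) / P - m) - (y + (d' : ℝ) / P - m')) := by
        field_simp
        ring
      rw [h4, abs_mul, abs_of_pos hP0]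
      have h5 := abs_sub (y + (d : ℝ) / P - m) (y + (d' : ℝ) / P - m')
      have h6 : 1 / (2 * (P : ℝ)) + 1 / (2 * P) = 1 / P := by
        field_simp
        norm_num
      calc (P : ℝ) * _ < P * (1 / P) := by
            gcongr
            linarith
        _ = 1 := by field_simp
    have h7 : ((d : ℤ) - d') - P * (m - m') = 0 := by
      have h8 : |((d : ℤ) - d') - P * (m - m')| < 1 := by exact_mod_cast h3
      exact Int.abs_lt_one_iff.mp h8
    have h9 : (P : ℤ) ∣ (d : ℤ) - d' := ⟨m - m', by linarith⟩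
    have h10 : (d : ℤ) - d' = 0 := by
      apply Int.eq_zero_of_abs_lt_dvd h9
      rw [abs_lt]
      constructor <;> omega
    omega
  exact_mod_cast h2

/-- the power sums of the products -/
theorem sum_ff {P : ℕ} (hP : 2 ≤ P) (T J : ℕ) :
    ∑ m ∈ Finset.range (P ^ J), ff P J m ^ T ≤ (1 + P * Real.cos (π * (1 / (2 * P))) ^ T) ^ J := by
  have hP0 : (0 : ℝ) < P := by exact_mod_cast (by omega : 0 < P)
  induction J with
  | zero => simp [ff]
  | succ J ih =>
    rw [pow_succ P J, sum_range_mul, Finset.sum_comm]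
    have h1 : ∀ a ∈ Finset.range (P ^ J), ∑ d ∈ Finset.range P,
        ff P (J + 1) ((P ^ J * d + a : ℕ) : ℝ) ^ T ≤
        ff P J a ^ T * (1 + P * Real.cos (π * (1 / (2 * P))) ^ T) := by
      intro a _
      have h2 : ∀ d ∈ Finset.range P, ff P (J + 1) ((P ^ J * d + a : ℕ) : ℝ) ^ T =
          ff P J a ^ T * gg ((a : ℝ) / (P : ℝ) ^ (J + 1) + (d : ℝ) / P) ^ T := by
        intro d _
        rw [ff_succ, mul_pow]
        congr 2
        · have h3 := ff_add (J := J) (by omega : 0 < P) (a : ℝ) (d : ℤ)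
          rw [← h3]
          congr 1
          push_cast
          ring
        · congr 1
          push_cast
          field_simp
          ring
      rw [Finset.sum_congr rfl h2, ← Finset.mul_sum]
      have h4 : 0 ≤ ff P J a ^ T := pow_nonneg (ff_nonneg _ _ _) _
      exact mul_le_mul_of_nonneg_left (sum_gg hP T _) h4
    refine (Finset.sum_le_sum h1).trans ?_
    rw [← Finset.sum_mul, pow_succ]
    have h5 : 0 ≤ 1 + (P : ℝ) * Real.cos (π * (1 / (2 * P))) ^ T :=
      le_trans (Finset.sum_nonneg fun d _ => pow_nonneg (gg_nonneg _) _) (sum_gg hP T 0)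
    exact mul_le_mul_of_nonneg_right ih h5

theorem exists_T {P : ℕ} (hP : 2 ≤ P) :
    ∃ T : ℕ, ∀ J, ∑ m ∈ Finset.range (P ^ J), ff P J m ^ T ≤ (3 / 2 : ℝ) ^ J := by
  have hP' : (2 : ℝ) ≤ P := by exact_mod_cast hP
  have hP0 : (0 : ℝ) < P := by linarith
  have hpi := Real.pi_pos
  have hx : 1 / (2 * (P : ℝ)) ≤ 1 / 2 := by
    rw [div_le_div_iff₀ (by positivity) (by norm_num)]
    linarith
  have hc1 : Real.cos (π * (1 / (2 * P))) < 1 := by
    have h := Real.cos_lt_cos_of_nonneg_of_le_pi (x := 0) (y := π * (1 / (2 * P))) le_rfl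
      (by nlinarith) (by positivity)
    rwa [Real.cos_zero] at h
  have hc0 : 0 ≤ Real.cos (π * (1 / (2 * P))) := by
    apply Real.cos_nonneg_of_mem_Icc
    constructor
    · have : 0 ≤ π * (1 / (2 * (P : ℝ))) := by positivity
      linarith
    · nlinarith
  obtain ⟨T, hT⟩ := exists_pow_lt_of_lt_one (by positivity : 0 < 1 / (2 * (P : ℝ))) hc1
  refine ⟨T, fun J => (sum_ff hP T J).trans ?_⟩
  have h1 : (P : ℝ) * Real.cos (π * (1 / (2 * P))) ^ T ≤ P * (1 / (2 * P)) := by gcongr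
  have h2 : (P : ℝ) * (1 / (2 * P)) = 1 / 2 := by field_simp
  apply pow_le_pow_left₀
  · positivity
  · linarith

/-- few residues have a large product -/
theorem count_ff {P : ℕ} {T : ℕ}
    (hT : ∀ J, ∑ m ∈ Finset.range (P ^ J), ff P J m ^ T ≤ (3 / 2 : ℝ) ^ J) {ε : ℝ} (hε : 0 < ε) (J : ℕ) :
    (((Finset.range (P ^ J)).filter fun m : ℕ => ε ≤ ff P J m).card : ℝ) ≤
      (ε ^ T)⁻¹ * (3 / 2 : ℝ) ^ J := by
  have h1 : (((Finset.range (P ^ J)).filter fun m : ℕ => ε ≤ ff P J m).card : ℝ) * ε ^ T ≤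
      ∑ m ∈ Finset.range (P ^ J), ff P J m ^ T := by
    rw [← nsmul_eq_mul, ← Finset.sum_const]
    refine (Finset.sum_le_sum fun m hm => ?_).trans
      (Finset.sum_le_sum_of_subset_of_nonneg (Finset.filter_subset _ _)
        fun m _ _ => pow_nonneg (ff_nonneg _ _ _) _)
    exact pow_le_pow_left₀ hε.le (Finset.mem_filter.mp hm).2 T
  have h2 := h1.trans (hT J)
  rw [inv_mul_eq_div, le_div_iff₀ (by positivity)]
  exact h2

theorem tendsto_ratio {P : ℕ} (hP : 2 ≤ P) (N : ℝ) (i : ℕ) :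
    Tendsto (fun M : ℕ => N * ((P : ℝ) ^ (M - 1 - i) / ((P : ℝ) ^ M - 1))) atTop
      (𝓝 (N / (P : ℝ) ^ (i + 1))) := by
  have hP' : (1 : ℝ) < P := by exact_mod_cast (by omega : 1 < P)
  have h1 : Tendsto (fun M : ℕ => ((P : ℝ) ^ M - 1)) atTop atTop :=
    tendsto_atTop_add_const_right _ _ (tendsto_pow_atTop_atTop_of_one_lt hP')
  have h2 : Tendsto (fun M : ℕ => N / (P : ℝ) ^ (i + 1) + N / (P : ℝ) ^ (i + 1) * ((P : ℝ) ^ M - 1)⁻¹)
      atTop (𝓝 (N / (P : ℝ) ^ (i + 1) + N / (P : ℝ) ^ (i + 1) * 0)) :=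
    (h1.inv_tendsto_atTop.const_mul _).const_add _
  rw [mul_zero, add_zero] at h2
  refine h2.congr' ?_
  filter_upwards [eventually_ge_atTop (i + 1)] with M hM
  have h3 := pow_sub_pos hP (by omega : 0 < M)
  have h4 : (P : ℝ) ^ M = (P : ℝ) ^ (M - 1 - i) * (P : ℝ) ^ (i + 1) := by
    rw [← pow_add]
    congr 1
    omega
  have h5 : N * ((P : ℝ) ^ (M - 1 - i) / ((P : ℝ) ^ M - 1)) =
      N / (P : ℝ) ^ (i + 1) * ((P : ℝ) ^ M / ((P : ℝ) ^ M - 1)) := by
    rw [h4]
    field_simp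
  rw [h5]
  field_simp
  ring

/-- for fixed `N` the products are eventually at most the limit product -/
theorem eventually_Ph {P : ℕ} (hP : 2 ≤ P) (J : ℕ) (N : ℤ) {η : ℝ} (h : ff P J N < η) :
    ∀ᶠ M : ℕ in atTop, ‖Ph P M N‖ < η := by
  have h1 : Tendsto (fun M : ℕ => ∏ i ∈ Finset.range J,
      gg ((N : ℝ) * ((P : ℝ) ^ (M - 1 - i) / ((P : ℝ) ^ M - 1)))) atTop (𝓝 (ff P J N)) :=
    tendsto_finsetProd _ fun i _ => (continuous_gg.tendsto _).comp (tendsto_ratio hP N i)
  filter_upwards [h1.eventually_lt_const h, eventually_ge_atTop J] with M hM hJ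
  refine lt_of_le_of_lt ?_ hM
  unfold Ph
  rw [norm_prod, ← Finset.prod_range_reflect]
  have h2 : ∀ i, ‖hh (N * ((P : ℝ) ^ (M - 1 - i) / ((P : ℝ) ^ M - 1)))‖ =
      gg ((N : ℝ) * ((P : ℝ) ^ (M - 1 - i) / ((P : ℝ) ^ M - 1))) := fun i => norm_hh _
  simp only [h2]
  rw [← Finset.prod_range_mul_prod_Ico _ hJ]
  exact mul_le_of_le_one_right (Finset.prod_nonneg fun _ _ => gg_nonneg _)
    (Finset.prod_le_one (fun _ _ => gg_nonneg _) fun _ _ => gg_le_one _)

end Pool.Agent.K3h9.GM
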