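import Pool.Agent.K3h9.GM.Basic

/-!
Averages over finitely many points, and averages along orbits of `x ↦ p x`.
-/

set_option autoImplicit false

open MeasureTheory Filter Topology Set
open scoped ENNReal NNReal Real

namespace Pool.Agent.K3h9.GM

/-- `e(x) = exp(2 π i x)` -/
noncomputable def ee (x : ℝ) : ℂ := Complex.exp (((2 * π * x : ℝ) : ℂ) * Complex.I)

theorem ee_add (x y : ℝ) : ee (x + y) = ee x * ee y := by
  unfold ee
  rw [← Complex.exp_add]
  congr 1
  push_cast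
  ring

theorem ee_zero : ee 0 = 1 := by simp [ee]

theorem ee_int (m : ℤ) : ee (m : ℝ) = 1 := by
  unfold ee
  rw [Complex.exp_eq_one_iff]
  exact ⟨m, by push_cast; ring⟩

theorem ee_add_int (x : ℝ) (m : ℤ) : ee (x + m) = ee x := by
  rw [ee_add, ee_int, mul_one]

theorem norm_ee (x : ℝ) : ‖ee x‖ = 1 := by
  unfold ee
  exact Complex.norm_exp_ofReal_mul_I _

theorem norm_ee_sub_one (x : ℝ) : ‖ee x - 1‖ ≤ 2 * π * |x| := by
  unfold ee
  have h := Real.norm_exp_I_mul_ofReal_sub_one_le (x := 2 * π * x)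
  rw [mul_comm Complex.I] at h
  refine h.trans (le_of_eq ?_)
  rw [Real.norm_eq_abs, abs_mul, abs_of_pos (by positivity : (0 : ℝ) < 2 * π)]

theorem norm_ee_sub (x y : ℝ) : ‖ee x - ee y‖ ≤ 2 * π * |x - y| := by
  have h1 : ee x - ee y = ee y * (ee (x - y) - 1) := by
    rw [mul_sub, ← ee_add, mul_one]
    congr 2
    ring
  rw [h1, norm_mul, norm_ee, one_mul]
  exact norm_ee_sub_one _

theorem norm_ee_sub_two (x y : ℝ) : ‖ee x - ee y‖ ≤ 2 := by
  refine (norm_sub_le _ _).trans ?_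
  rw [norm_ee, norm_ee]
  norm_num

theorem fourier_real (k : ℤ) (x : ℝ) : (fourier k ((x : ℝ) : TT) : ℂ) = ee (k * x) := by
  rw [fourier_coe_apply]
  unfold ee
  congr 1
  push_cast
  ring

/-- the average of the point masses at `f i`, `i ∈ s` -/
noncomputable def avg {ι : Type*} (s : Finset ι) (hs : s.Nonempty) (f : ι → TT) :
    ProbabilityMeasure TT :=
  ⟨(s.card : ℝ≥0∞)⁻¹ • ∑ i ∈ s, Measure.dirac (f i), by
    constructor
    rw [Measure.smul_apply, Measure.finsetSum_apply]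
    simp only [measure_univ, Finset.sum_const, nsmul_eq_mul, mul_one, smul_eq_mul]
    exact ENNReal.inv_mul_cancel (by simpa using hs.ne_empty) (by simp)⟩

theorem fc_avg {ι : Type*} (s : Finset ι) (hs : s.Nonempty) (f : ι → TT) (k : ℤ) :
    fc (avg s hs f : Measure TT) k = (s.card : ℂ)⁻¹ * ∑ i ∈ s, (fourier k (f i) : ℂ) := by
  unfold fc
  have h1 : (avg s hs f : Measure TT) = (s.card : ℝ≥0∞)⁻¹ • ∑ i ∈ s, Measure.dirac (f i) := rfl
  rw [h1, integral_smul_measure, integral_finsetSum_measure]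
  · simp only [integral_dirac]
    rw [ENNReal.toReal_inv, ENNReal.toReal_natCast, Complex.real_smul]
    push_cast
    rfl
  · intro i _
    exact integrable_dirac (by finiteness)

/-- the convex combination `t μ + (1 - t) ν` -/
noncomputable def mix (t : ℝ) (ht0 : 0 ≤ t) (ht1 : t ≤ 1) (μ ν : ProbabilityMeasure TT) :
    ProbabilityMeasure TT :=
  ⟨ENNReal.ofReal t • (μ : Measure TT) + ENNReal.ofReal (1 - t) • (ν : Measure TT), by
    constructor
    rw [Measure.add_apply, Measure.smul_apply, Measure.smul_apply]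
    simp only [measure_univ, smul_eq_mul, mul_one]
    rw [← ENNReal.ofReal_add ht0 (by linarith)]
    simp⟩

theorem fc_comb {t : ℝ} (ht0 : 0 ≤ t) (ht1 : t ≤ 1) (μ ν : Measure TT) [IsFiniteMeasure μ]
    [IsFiniteMeasure ν] (k : ℤ) :
    fc (ENNReal.ofReal t • μ + ENNReal.ofReal (1 - t) • ν) k =
      (t : ℂ) * fc μ k + ((1 - t : ℝ) : ℂ) * fc ν k := by
  unfold fc
  have hi : ∀ ρ : Measure TT, IsFiniteMeasure ρ → Integrable (fun x : TT => (fourier k x : ℂ)) ρ :=
    fun ρ _ => Pool.Agent.R202.integrable_cont ρ (fourier k)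
  rw [integral_add_measure, integral_smul_measure, integral_smul_measure,
    ENNReal.toReal_ofReal ht0, ENNReal.toReal_ofReal (by linarith), Complex.real_smul,
    Complex.real_smul]
  · exact (hi μ inferInstance).smul_measure ENNReal.ofReal_ne_top
  · exact (hi ν inferInstance).smul_measure ENNReal.ofReal_ne_top

theorem fc_mix (t : ℝ) (ht0 : 0 ≤ t) (ht1 : t ≤ 1) (μ ν : ProbabilityMeasure TT) (k : ℤ) :
    fc (mix t ht0 ht1 μ ν : Measure TT) k =
      (t : ℂ) * fc (μ : Measure TT) k + ((1 - t : ℝ) : ℂ) * fc (ν : Measure TT) k :=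
  fc_comb ht0 ht1 _ _ k

/-- the orbit average `(1 / n) ∑_{i < n} e(k p^i x)` -/
noncomputable def AA (p n : ℕ) (k : ℤ) (x : ℝ) : ℂ :=
  (n : ℂ)⁻¹ * ∑ i ∈ Finset.range n, ee (k * ((p : ℝ) ^ i * x))

/-- the average of the point masses at `p^i x`, `i < n` -/
noncomputable def cyc (p n : ℕ) (hn : n ≠ 0) (x : ℝ) : ProbabilityMeasure TT :=
  avg (Finset.range n) (by simpa using hn) fun i => (((p : ℝ) ^ i * x : ℝ) : TT)

theorem fc_cyc (p n : ℕ) (hn : n ≠ 0) (x : ℝ) (k : ℤ) :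
    fc (cyc p n hn x : Measure TT) k = AA p n k x := by
  unfold cyc AA
  rw [fc_avg, Finset.card_range]
  simp only [fourier_real]

/-- periodic points -/
def Per (p h : ℕ) (x : ℝ) : Prop := ∃ m : ℤ, (p : ℝ) ^ h * x = x + m

theorem Per.ee_shift {p h : ℕ} {x : ℝ} (hx : Per p h x) (k : ℤ) (i : ℕ) :
    ee (k * ((p : ℝ) ^ (i + h) * x)) = ee (k * ((p : ℝ) ^ i * x)) := by
  obtain ⟨m, hm⟩ := hx
  have h1 : (k : ℝ) * ((p : ℝ) ^ (i + h) * x) = k * ((p : ℝ) ^ i * x) + ((k * (p : ℤ) ^ i * m : ℤ) : ℝ) := by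
    rw [pow_add, mul_assoc ((p : ℝ) ^ i), hm]
    push_cast
    ring
  rw [h1, ee_add_int]

theorem AA_mul {p n : ℕ} {x : ℝ} (hx : Per p n x) (k : ℤ) : AA p n (k * p) x = AA p n k x := by
  unfold AA
  congr 1
  have h1 : ∀ i, ee (((k * p : ℤ) : ℝ) * ((p : ℝ) ^ i * x)) = ee (k * ((p : ℝ) ^ (i + 1) * x)) := by
    intro i
    congr 1
    push_cast
    ring
  simp only [h1]
  have h2 := Finset.sum_range_succ (fun i => ee (k * ((p : ℝ) ^ i * x))) n
  have h3 := Finset.sum_range_succ' (fun i => ee (k * ((p : ℝ) ^ i * x))) n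
  have h4 := hx.ee_shift k 0
  rw [Nat.zero_add] at h4
  rw [h4] at h2
  rw [h2] at h3
  exact (add_right_cancel h3).symm

theorem img_eq_of_fc {m : ℕ} {μ ν : ProbabilityMeasure TT}
    (h : ∀ k : ℤ, fc (μ : Measure TT) (k * m) = fc (ν : Measure TT) k) : img m μ = ν := by
  apply ext_fc
  intro k
  rw [fc_img]
  exact h k

theorem cyc_mem_Inv {p n : ℕ} (hn : n ≠ 0) {x : ℝ} (hx : Per p n x) : cyc p n hn x ∈ Inv p := by
  apply img_eq_of_fc
  intro k
  rw [fc_cyc, fc_cyc, AA_mul hx]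

theorem fc_Inv {p : ℕ} {μ : ProbabilityMeasure TT} (hμ : μ ∈ Inv p) (k : ℤ) :
    fc (μ : Measure TT) (k * p) = fc (μ : Measure TT) k := by
  rw [← fc_img]
  have h : img p μ = μ := hμ
  rw [h]

theorem fc_Inv_pow {p : ℕ} {μ : ProbabilityMeasure TT} (hμ : μ ∈ Inv p) (k : ℤ) (i : ℕ) :
    fc (μ : Measure TT) (k * (p : ℤ) ^ i) = fc (μ : Measure TT) k := by
  induction i with
  | zero => simp
  | succ i ih => rw [pow_succ, ← mul_assoc, fc_Inv hμ, ih]

theorem mix_mem_Inv {p : ℕ} {t : ℝ} (ht0 : 0 ≤ t) (ht1 : t ≤ 1) {μ ν : ProbabilityMeasure TT}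
    (hμ : μ ∈ Inv p) (hν : ν ∈ Inv p) : mix t ht0 ht1 μ ν ∈ Inv p := by
  apply img_eq_of_fc
  intro k
  rw [fc_mix, fc_mix, fc_Inv hμ, fc_Inv hν]

theorem norm_AA_le (p n : ℕ) (k : ℤ) (x : ℝ) : ‖AA p n k x‖ ≤ 1 := by
  unfold AA
  rcases Nat.eq_zero_or_pos n with h | h
  · subst h
    simp
  · rw [norm_mul, norm_inv, Complex.norm_natCast]
    have h1 : ‖∑ i ∈ Finset.range n, ee (k * ((p : ℝ) ^ i * x))‖ ≤ n := by
      refine (norm_sum_le _ _).trans ?_
      simp [norm_ee]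
    have h2 : (0 : ℝ) < n := by exact_mod_cast h
    calc (n : ℝ)⁻¹ * _ ≤ (n : ℝ)⁻¹ * n := by gcongr
      _ = 1 := inv_mul_cancel₀ h2.ne'

/-- nearby points have nearby orbit averages -/
theorem AA_near {p n s : ℕ} (hp : 1 ≤ p) (hn : 0 < n) (k : ℤ) {x y δ : ℝ} (h : |x - y| ≤ δ) :
    ‖AA p n k x - AA p n k y‖ ≤ 2 * π * |(k : ℝ)| * ((p : ℝ) ^ (n - s) * δ) + 2 * s / n := by
  have hδ : 0 ≤ δ := (abs_nonneg _).trans h
  have hn' : (0 : ℝ) < n := by exact_mod_cast hn
  have hp' : (1 : ℝ) ≤ p := by exact_mod_cast hp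
  unfold AA
  rw [← mul_sub, ← Finset.sum_sub_distrib, norm_mul, norm_inv, Complex.norm_natCast]
  set c : ℝ := 2 * π * |(k : ℝ)| * ((p : ℝ) ^ (n - s) * δ) with hc
  have hc0 : 0 ≤ c := by positivity
  have h1 : ∀ i ∈ Finset.range n, ‖ee (k * ((p : ℝ) ^ i * x)) - ee (k * ((p : ℝ) ^ i * y))‖ ≤
      c + if n - s ≤ i then 2 else 0 := by
    intro i _
    split_ifs with hi
    · exact (norm_ee_sub_two _ _).trans (by linarith)
    · rw [add_zero]
      refine (norm_ee_sub _ _).trans ?_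
      have h2 : (k : ℝ) * ((p : ℝ) ^ i * x) - k * ((p : ℝ) ^ i * y) = k * ((p : ℝ) ^ i * (x - y)) := by
        ring
      rw [h2, abs_mul, abs_mul, abs_of_nonneg (by positivity : (0 : ℝ) ≤ (p : ℝ) ^ i), hc,
        mul_assoc (2 * π)]
      have h3 : (p : ℝ) ^ i ≤ (p : ℝ) ^ (n - s) := pow_le_pow_right₀ hp' (by omega)
      gcongr
  have h2 : ‖∑ i ∈ Finset.range n, (ee (k * ((p : ℝ) ^ i * x)) - ee (k * ((p : ℝ) ^ i * y)))‖ ≤
      n * c + 2 * s := by
    refine (norm_sum_le _ _).trans ((Finset.sum_le_sum h1).trans ?_)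
    rw [Finset.sum_add_distrib, Finset.sum_const, Finset.card_range, nsmul_eq_mul]
    gcongr
    rw [← Finset.sum_filter, Finset.sum_const, nsmul_eq_mul, mul_comm]
    gcongr
    have h4 : (Finset.range n).filter (fun i => n - s ≤ i) ⊆ Finset.Ico (n - s) n := by
      intro i hi
      rw [Finset.mem_filter, Finset.mem_range] at hi
      rw [Finset.mem_Ico]
      exact ⟨hi.2, hi.1⟩
    refine (Finset.card_le_card h4).trans ?_
    rw [Nat.card_Ico]
    omega
  calc (n : ℝ)⁻¹ * _ ≤ (n : ℝ)⁻¹ * (n * c + 2 * s) := by gcongr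
    _ = c + 2 * s / n := by field_simp

/-- averages of periodic sequences -/
theorem AA_per {p h n : ℕ} (hh : 0 < h) (hn : 0 < n) {x : ℝ} (hx : Per p h x) (k : ℤ) :
    ‖AA p n k x - AA p h k x‖ ≤ 2 * h / n := by
  set a : ℂ := AA p h k x with ha
  set u : ℕ → ℂ := fun i => ee (k * ((p : ℝ) ^ i * x)) - a with hu
  have hh' : (h : ℂ) ≠ 0 := by exact_mod_cast hh.ne'
  have hn' : (n : ℂ) ≠ 0 := by exact_mod_cast hn.ne'
  have hper : ∀ i, u (i + h) = u i := by
    intro i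
    simp only [hu]
    rw [hx.ee_shift]
  have h0 : ∑ i ∈ Finset.range h, u i = 0 := by
    simp only [hu]
    rw [Finset.sum_sub_distrib, Finset.sum_const, Finset.card_range, nsmul_eq_mul, ha, AA,
      mul_inv_cancel_left₀ hh', sub_self]
  have hS : ∀ m, ∑ i ∈ Finset.range (m + h), u i = ∑ i ∈ Finset.range m, u i := by
    intro m
    rw [add_comm m h, Finset.sum_range_add, h0, zero_add]
    exact Finset.sum_congr rfl fun i _ => by rw [add_comm h i, hper]
  have hun : ∀ i, ‖u i‖ ≤ 2 := by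
    intro i
    simp only [hu]
    refine (norm_sub_le _ _).trans ?_
    rw [norm_ee]
    have := norm_AA_le p h k x
    linarith
  have hB : ∀ m, ‖∑ i ∈ Finset.range m, u i‖ ≤ 2 * h := by
    intro m
    induction m using Nat.strong_induction_on with
    | _ m ih =>
      rcases lt_or_ge m h with hm | hm
      · refine (norm_sum_le _ _).trans ((Finset.sum_le_sum fun i _ => hun i).trans ?_)
        rw [Finset.sum_const, Finset.card_range, nsmul_eq_mul]
        have : (m : ℝ) ≤ h := by exact_mod_cast hm.le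
        linarith
      · obtain ⟨m', rfl⟩ : ∃ m', m = m' + h := ⟨m - h, by omega⟩
        rw [hS]
        exact ih m' (by omega)
  have h1 : AA p n k x - a = (n : ℂ)⁻¹ * ∑ i ∈ Finset.range n, u i := by
    simp only [hu]
    rw [Finset.sum_sub_distrib, Finset.sum_const, Finset.card_range, nsmul_eq_mul, mul_sub,
      inv_mul_cancel_left₀ hn']
    rfl
  rw [h1, norm_mul, norm_inv, Complex.norm_natCast, ← div_eq_inv_mul]
  gcongr
  exact hB n

end Pool.Agent.K3h9.GM
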