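import Pool.Agent.K3h9.GM.Cyc

/-!
Periodic orbits are dense among the measures invariant under `x ↦ p x`.
-/

set_option autoImplicit false

open MeasureTheory Filter Topology Set
open scoped ENNReal NNReal Real

namespace Pool.Agent.K3h9.GM

/-- the number with the base `P` digits `b t, b (t+1), …` -/
noncomputable def xs (P : ℕ) (b : ℕ → ℕ) (t : ℕ) : ℝ := ∑' j : ℕ, (b (t + j) : ℝ) / (P : ℝ) ^ (j + 1)

theorem xs_summable {P : ℕ} (hP : 2 ≤ P) {b : ℕ → ℕ} (hb : ∀ t, b t < P) (t : ℕ) :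
    Summable fun j : ℕ => (b (t + j) : ℝ) / (P : ℝ) ^ (j + 1) := by
  have hP' : (2 : ℝ) ≤ P := by exact_mod_cast hP
  have h1 : Summable fun j : ℕ => ((1 : ℝ) / 2) ^ j := summable_geometric_two
  refine Summable.of_nonneg_of_le (fun j => by positivity) (fun j => ?_) h1
  have h2 : (b (t + j) : ℝ) ≤ P := by exact_mod_cast (hb _).le
  calc (b (t + j) : ℝ) / (P : ℝ) ^ (j + 1) ≤ P / (P : ℝ) ^ (j + 1) := by gcongr
    _ = (1 / (P : ℝ)) ^ j := by
      rw [pow_succ, div_pow, one_pow]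
      field_simp
    _ ≤ (1 / 2) ^ j := by gcongr

theorem xs_nonneg {P : ℕ} (b : ℕ → ℕ) (t : ℕ) : 0 ≤ xs P b t :=
  tsum_nonneg fun j => by positivity

theorem xs_step {P : ℕ} (hP : 2 ≤ P) {b : ℕ → ℕ} (hb : ∀ t, b t < P) (t : ℕ) :
    (P : ℝ) * xs P b t = b t + xs P b (t + 1) := by
  have hP' : (2 : ℝ) ≤ P := by exact_mod_cast hP
  have hP0 : (P : ℝ) ≠ 0 := by positivity
  unfold xs
  rw [(xs_summable hP hb t).tsum_eq_zero_add, mul_add, ← tsum_mul_left]
  congr 1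
  · simp only [add_zero, zero_add, pow_one]
    field_simp
  · congr 1
    funext j
    have h1 : t + (j + 1) = t + 1 + j := by ring
    rw [h1, pow_succ (P : ℝ) (j + 1)]
    field_simp

theorem xs_le_one {P : ℕ} (hP : 2 ≤ P) {b : ℕ → ℕ} (hb : ∀ t, b t < P) (t : ℕ) : xs P b t ≤ 1 := by
  have hP' : (2 : ℝ) ≤ P := by exact_mod_cast hP
  have h1 : HasSum (fun j : ℕ => ((P : ℝ) - 1) / (P : ℝ) ^ (j + 1)) 1 := by
    have h2 : HasSum (fun j : ℕ => (1 / (P : ℝ)) ^ j) (1 - 1 / (P : ℝ))⁻¹ :=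
      hasSum_geometric_of_lt_one (by positivity) (by
        rw [div_lt_one (by positivity)]
        linarith)
    have h3 := h2.mul_left (((P : ℝ) - 1) / P)
    have h4 : ((P : ℝ) - 1) / P * (1 - 1 / (P : ℝ))⁻¹ = 1 := by
      have h5 : (P : ℝ) - 1 ≠ 0 := by linarith
      have h6 : (1 - 1 / (P : ℝ)) = (P - 1) / P := by field_simp
      rw [h6, inv_div]
      field_simp
    rw [h4] at h3
    refine h3.congr_fun ?_ |> fun h => h
    intro j
    rw [pow_succ, div_pow, one_pow]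
    field_simp
  rw [← h1.tsum_eq]
  refine (xs_summable hP hb t).tsum_le_tsum (fun j => ?_) h1.summable
  have h2 : (b (t + j) : ℝ) + 1 ≤ P := by exact_mod_cast hb _
  gcongr
  linarith

theorem xs_near {P : ℕ} (hP : 2 ≤ P) {b : ℕ → ℕ} (hb : ∀ t, b t < P) (t : ℕ) :
    |xs P b t - (b t : ℝ) / P| ≤ 1 / P := by
  have hP0 : (0 : ℝ) < P := by exact_mod_cast (by omega : 0 < P)
  have h1 := xs_step hP hb t
  have h2 : xs P b t - (b t : ℝ) / P = xs P b (t + 1) / P := by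
    field_simp
    linarith
  rw [h2, abs_of_nonneg (div_nonneg (xs_nonneg b _) hP0.le)]
  gcongr
  exact xs_le_one hP hb _

theorem xs_pow {P : ℕ} (hP : 2 ≤ P) {b : ℕ → ℕ} (hb : ∀ t, b t < P) (t : ℕ) :
    ∃ m : ℤ, (P : ℝ) ^ t * xs P b 0 = xs P b t + m := by
  induction t with
  | zero => exact ⟨0, by simp⟩
  | succ t ih =>
    obtain ⟨m, hm⟩ := ih
    refine ⟨P * m + b t, ?_⟩
    have h1 := xs_step hP hb t
    rw [pow_succ, mul_comm ((P : ℝ) ^ t), mul_assoc, hm, mul_add, h1]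
    push_cast
    ring

theorem xs_periodic {P M : ℕ} {b : ℕ → ℕ} (hM : ∀ t, b (t + M) = b t) (t : ℕ) :
    xs P b (t + M) = xs P b t := by
  unfold xs
  congr 1
  funext j
  rw [show t + M + j = t + j + M by ring, hM]

theorem xs_Per {P M : ℕ} (hP : 2 ≤ P) {b : ℕ → ℕ} (hb : ∀ t, b t < P) (hM : ∀ t, b (t + M) = b t) :
    Per P M (xs P b 0) := by
  obtain ⟨m, hm⟩ := xs_pow hP hb M
  refine ⟨m, ?_⟩
  rw [hm]
  have := xs_periodic (P := P) hM 0
  rw [Nat.zero_add] at this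
  rw [this]

theorem Per_pow {p L M : ℕ} {x : ℝ} (h : Per (p ^ L) M x) : Per p (L * M) x := by
  obtain ⟨m, hm⟩ := h
  refine ⟨m, ?_⟩
  rw [pow_mul]
  push_cast at hm
  exact hm

theorem sum_range_mul {α : Type*} [AddCommMonoid α] (L M : ℕ) (u : ℕ → α) :
    ∑ i ∈ Finset.range (L * M), u i = ∑ t ∈ Finset.range M, ∑ o ∈ Finset.range L, u (L * t + o) := by
  induction M with
  | zero => simp
  | succ M ih =>
    rw [Nat.mul_succ, Finset.sum_range_add, ih, Finset.sum_range_succ]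

theorem geom_le {p : ℕ} (hp : 2 ≤ p) (L : ℕ) :
    ∑ o ∈ Finset.range L, (p : ℝ) ^ o ≤ (p : ℝ) ^ L := by
  have hp' : (2 : ℝ) ≤ p := by exact_mod_cast hp
  induction L with
  | zero => simp
  | succ L ih =>
    rw [Finset.sum_range_succ, pow_succ]
    have : 0 < (p : ℝ) ^ L := by positivity
    nlinarith

/-- the representative in `[0, 1)` -/
noncomputable def rep (x : TT) : ℝ := (AddCircle.measurableEquivIco (1 : ℝ) 0 x : ℝ)

theorem measurable_rep : Measurable rep :=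
  measurable_subtype_coe.comp (AddCircle.measurableEquivIco (1 : ℝ) 0).measurable

theorem rep_mem (x : TT) : 0 ≤ rep x ∧ rep x < 1 := by
  obtain ⟨h1, h2⟩ := (AddCircle.measurableEquivIco (1 : ℝ) 0 x).2
  exact ⟨h1, lt_of_lt_of_eq h2 (zero_add 1)⟩

theorem coe_rep (x : TT) : ((rep x : ℝ) : TT) = x := AddCircle.coe_equivIco (p := (1 : ℝ)) (a := 0)

/-- the first digit in base `P` -/
noncomputable def dig (P : ℕ) (x : TT) : ℕ := ⌊(P : ℝ) * rep x⌋₊

theorem measurable_dig (P : ℕ) : Measurable (dig P) :=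
  Nat.measurable_floor.comp (measurable_const.mul measurable_rep)

theorem dig_lt {P : ℕ} (hP : 0 < P) (x : TT) : dig P x < P := by
  have hP' : (0 : ℝ) < P := by exact_mod_cast hP
  unfold dig
  rw [Nat.floor_lt (mul_nonneg hP'.le (rep_mem x).1)]
  calc (P : ℝ) * rep x < P * 1 := by gcongr; exact (rep_mem x).2
    _ = P := mul_one _

theorem dig_near {P : ℕ} (hP : 0 < P) (x : TT) : |rep x - (dig P x : ℝ) / P| ≤ 1 / P := by
  have hP' : (0 : ℝ) < P := by exact_mod_cast hP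
  have h1 := Nat.floor_le (mul_nonneg hP'.le (rep_mem x).1)
  have h2 := Nat.lt_floor_add_one ((P : ℝ) * rep x)
  unfold dig
  have h3 : rep x - (⌊(P : ℝ) * rep x⌋₊ : ℝ) / P = (P * rep x - ⌊(P : ℝ) * rep x⌋₊) / P := by
    field_simp
  rw [h3, abs_of_nonneg (div_nonneg (by linarith) hP'.le)]
  gcongr
  linarith

/-- the block average -/
noncomputable def GG (p L : ℕ) (k : ℤ) (x : ℝ) : ℂ :=
  (L : ℂ)⁻¹ * ∑ o ∈ Finset.range L, ee (k * ((p : ℝ) ^ o * x))

theorem norm_GG_le (p L : ℕ) (k : ℤ) (x : ℝ) : ‖GG p L k x‖ ≤ 1 := norm_AA_le p L k x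

theorem GG_near {p L : ℕ} (hp : 2 ≤ p) (hL : 0 < L) (k : ℤ) {x y : ℝ}
    (h : |x - y| ≤ 1 / ((p ^ L : ℕ) : ℝ)) :
    ‖GG p L k x - GG p L k y‖ ≤ 2 * π * |(k : ℝ)| / L := by
  have hL' : (0 : ℝ) < L := by exact_mod_cast hL
  have hp' : (0 : ℝ) < p := by exact_mod_cast (by omega : 0 < p)
  unfold GG
  rw [← mul_sub, ← Finset.sum_sub_distrib, norm_mul, norm_inv, Complex.norm_natCast,
    ← div_eq_inv_mul]
  gcongr
  refine (norm_sum_le _ _).trans ?_
  have h1 : ∀ o ∈ Finset.range L, ‖ee (k * ((p : ℝ) ^ o * x)) - ee (k * ((p : ℝ) ^ o * y))‖ ≤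
      (2 * π * |(k : ℝ)| / ((p ^ L : ℕ) : ℝ)) * (p : ℝ) ^ o := by
    intro o _
    refine (norm_ee_sub _ _).trans ?_
    have h2 : (k : ℝ) * ((p : ℝ) ^ o * x) - k * ((p : ℝ) ^ o * y) = k * ((p : ℝ) ^ o * (x - y)) := by
      ring
    rw [h2, abs_mul, abs_mul, abs_of_nonneg (by positivity : (0 : ℝ) ≤ (p : ℝ) ^ o)]
    calc 2 * π * (|(k : ℝ)| * ((p : ℝ) ^ o * |x - y|))
        ≤ 2 * π * (|(k : ℝ)| * ((p : ℝ) ^ o * (1 / ((p ^ L : ℕ) : ℝ)))) := by gcongr
      _ = _ := by ring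
  refine (Finset.sum_le_sum h1).trans ?_
  rw [← Finset.mul_sum]
  calc 2 * π * |(k : ℝ)| / ((p ^ L : ℕ) : ℝ) * ∑ o ∈ Finset.range L, (p : ℝ) ^ o
      ≤ 2 * π * |(k : ℝ)| / ((p ^ L : ℕ) : ℝ) * (p : ℝ) ^ L := by
        gcongr
        exact geom_le hp L
    _ = 2 * π * |(k : ℝ)| := by
        push_cast
        field_simp

/-- the frequencies of the digits -/
noncomputable def wt (μ : ProbabilityMeasure TT) (P B : ℕ) : ℝ :=
  (μ : Measure TT).real {x | dig P x = B}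

theorem wt_nonneg (μ : ProbabilityMeasure TT) (P B : ℕ) : 0 ≤ wt μ P B := measureReal_nonneg

theorem integral_dig (μ : ProbabilityMeasure TT) {P : ℕ} (hP : 0 < P) (f : ℕ → ℂ) :
    ∫ x, f (dig P x) ∂(μ : Measure TT) = ∑ B ∈ Finset.range P, (wt μ P B : ℂ) * f B := by
  have h1 : ∀ x, f (dig P x) = ∑ B ∈ Finset.range P, ({x | dig P x = B} : Set TT).indicator (fun _ => f B) x := by
    intro x
    rw [Finset.sum_eq_single (dig P x)]
    · rw [Set.indicator_of_mem (by rfl)]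
    · intro B _ hB
      rw [Set.indicator_of_notMem]
      intro h
      exact hB h.symm
    · intro h
      exact absurd (Finset.mem_range.mpr (dig_lt hP x)) h
  have hm : ∀ B, MeasurableSet ({x | dig P x = B} : Set TT) := fun B =>
    measurable_dig P (measurableSet_singleton B)
  simp only [h1]
  rw [integral_finsetSum _ (fun B _ => (integrable_const _).indicator (hm B))]
  refine Finset.sum_congr rfl fun B _ => ?_
  rw [integral_indicator_const _ (hm B), wt, Complex.real_smul]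

theorem wt_sum (μ : ProbabilityMeasure TT) {P : ℕ} (hP : 0 < P) :
    ∑ B ∈ Finset.range P, wt μ P B = 1 := by
  have h := integral_dig μ hP (fun _ => 1)
  simp only [integral_const, probReal_univ, one_smul, mul_one] at h
  exact_mod_cast h.symm

/-- an invariant measure is close to its block distribution -/
theorem fc_near_wt {p : ℕ} (hp : 2 ≤ p) {μ : ProbabilityMeasure TT} (hμ : μ ∈ Inv p) {L : ℕ}
    (hL : 0 < L) (k : ℤ) :
    ‖fc (μ : Measure TT) k - ∑ B ∈ Finset.range (p ^ L), (wt μ (p ^ L) B : ℂ) *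
      GG p L k ((B : ℝ) / ((p ^ L : ℕ) : ℝ))‖ ≤ 2 * π * |(k : ℝ)| / L := by
  have hP : 0 < p ^ L := by positivity
  have hL' : (L : ℂ) ≠ 0 := by exact_mod_cast hL.ne'
  rw [← integral_dig μ hP (fun B => GG p L k ((B : ℝ) / ((p ^ L : ℕ) : ℝ)))]
  have h1 : ∀ x : TT, GG p L k (rep x) = (L : ℂ)⁻¹ * ∑ o ∈ Finset.range L, (fourier (k * (p : ℤ) ^ o) x : ℂ) := by
    intro x
    unfold GG
    congr 1
    refine Finset.sum_congr rfl fun o _ => ?_
    conv_rhs => rw [← coe_rep x]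
    rw [fourier_real]
    congr 1
    push_cast
    ring
  have hi : ∀ f : C(TT, ℂ), Integrable f (μ : Measure TT) := fun f =>
    Pool.Agent.R202.integrable_cont _ f
  have h2 : fc (μ : Measure TT) k = ∫ x, GG p L k (rep x) ∂(μ : Measure TT) := by
    simp only [h1]
    rw [integral_const_mul, integral_finsetSum _ (fun o _ => hi (fourier (k * (p : ℤ) ^ o)))]
    have h3 : ∀ o ∈ Finset.range L, ∫ x, (fourier (k * (p : ℤ) ^ o) x : ℂ) ∂(μ : Measure TT) =
        fc (μ : Measure TT) k := fun o _ => fc_Inv_pow hμ k o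
    rw [Finset.sum_congr rfl h3, Finset.sum_const, Finset.card_range, nsmul_eq_mul,
      inv_mul_cancel_left₀ hL']
  have hI1 : Integrable (fun x => GG p L k (rep x)) (μ : Measure TT) := by
    simp only [h1]
    exact (integrable_finsetSum _ fun o _ => hi (fourier (k * (p : ℤ) ^ o))).const_mul _
  have hI2 : Integrable (fun x => GG p L k ((dig (p ^ L) x : ℝ) / ((p ^ L : ℕ) : ℝ))) (μ : Measure TT) := by
    refine Integrable.of_bound (C := 1) ?_ (Eventually.of_forall fun x => norm_GG_le _ _ _ _)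
    have : Measurable (fun B : ℕ => GG p L k ((B : ℝ) / ((p ^ L : ℕ) : ℝ))) := measurable_from_top
    exact (this.comp (measurable_dig _)).aestronglyMeasurable
  rw [h2, ← integral_sub hI1 hI2]
  have h4 := norm_integral_le_of_norm_le_const (μ := (μ : Measure TT))
    (f := fun x => GG p L k (rep x) - GG p L k ((dig (p ^ L) x : ℝ) / ((p ^ L : ℕ) : ℝ)))
    (C := 2 * π * |(k : ℝ)| / L) (Eventually.of_forall fun x => GG_near hp hL k (dig_near hP x))
  simpa using h4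

/-- a periodic point with prescribed multiplicities of blocks -/
theorem exists_block_point {p L : ℕ} (hp : 2 ≤ p) (hL : 0 < L) (m : ℕ → ℕ)
    (hM : 0 < ∑ B ∈ Finset.range (p ^ L), m B) :
    ∃ x : ℝ, Per p (L * ∑ B ∈ Finset.range (p ^ L), m B) x ∧ ∀ k : ℤ,
      ‖AA p (L * ∑ B ∈ Finset.range (p ^ L), m B) k x -
        ((∑ B ∈ Finset.range (p ^ L), m B : ℕ) : ℂ)⁻¹ * ∑ B ∈ Finset.range (p ^ L), (m B : ℂ) *
          GG p L k ((B : ℝ) / ((p ^ L : ℕ) : ℝ))‖ ≤ 2 * π * |(k : ℝ)| / L := by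
  set P := p ^ L with hPdef
  have hP : 2 ≤ P := hp.trans (Nat.le_self_pow hL.ne' p)
  have hsum : ∑ B ∈ Finset.range P, m B = ∑ B : Fin P, m B := Finset.sum_range _
  set M := ∑ B ∈ Finset.range P, m B with hMdef
  have e : (B : Fin P) × Fin (m B) ≃ Fin M := (finSigmaFinEquiv (n := fun B : Fin P => m B)).trans
    (finCongr hsum.symm)
  let b0 : Fin M → ℕ := fun t => ((e.symm t).1 : ℕ)
  let b : ℕ → ℕ := fun t => b0 ⟨t % M, Nat.mod_lt _ hM⟩
  have hb : ∀ t, b t < P := fun t => (e.symm _).1.2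
  have hbM : ∀ t, b (t + M) = b t := by
    intro t
    simp only [b, Nat.add_mod_right]
  have hcount : ∀ f : ℕ → ℂ, ∑ t ∈ Finset.range M, f (b t) = ∑ B ∈ Finset.range P, (m B : ℂ) * f B := by
    intro f
    rw [Finset.sum_range, Finset.sum_range]
    have h1 : ∀ t : Fin M, f (b t) = f (b0 t) := by
      intro t
      have h2 : (⟨(t : ℕ) % M, Nat.mod_lt _ hM⟩ : Fin M) = t := by
        apply Fin.ext
        exact Nat.mod_eq_of_lt t.2
      simp only [b, h2]
    simp only [h1]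
    rw [← e.sum_comp]
    simp only [b0, Equiv.symm_apply_apply]
    rw [Fintype.sum_sigma]
    refine Finset.sum_congr rfl fun B _ => ?_
    simp
  refine ⟨xs P b 0, Per_pow (xs_Per hP hb hbM), fun k => ?_⟩
  have hMr : (M : ℂ) ≠ 0 := by exact_mod_cast hM.ne'
  have hLr : (L : ℂ) ≠ 0 := by exact_mod_cast hL.ne'
  have h1 : AA p (L * M) k (xs P b 0) = (M : ℂ)⁻¹ * ∑ t ∈ Finset.range M, GG p L k (xs P b t) := by
    unfold AA GG
    rw [sum_range_mul, ← Finset.mul_sum, ← mul_assoc]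
    congr 1
    · push_cast
      rw [mul_inv, mul_comm]
    · refine Finset.sum_congr rfl fun t _ => Finset.sum_congr rfl fun o _ => ?_
      obtain ⟨c, hc⟩ := xs_pow hP hb t
      have h2 : (k : ℝ) * ((p : ℝ) ^ (L * t + o) * xs P b 0) =
          k * ((p : ℝ) ^ o * xs P b t) + ((k * (p : ℤ) ^ o * c : ℤ) : ℝ) := by
        have h3 : (p : ℝ) ^ (L * t + o) * xs P b 0 = (p : ℝ) ^ o * ((P : ℝ) ^ t * xs P b 0) := by
          rw [hPdef, pow_add, pow_mul]
          push_cast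
          ring
        rw [h3, hc]
        push_cast
        ring
      rw [h2, ee_add_int]
  rw [h1, ← hcount (fun B => GG p L k ((B : ℝ) / ((P : ℕ) : ℝ))), ← mul_sub,
    ← Finset.sum_sub_distrib, norm_mul, norm_inv, Complex.norm_natCast]
  have h2 : ‖∑ t ∈ Finset.range M, (GG p L k (xs P b t) - GG p L k ((b t : ℝ) / (P : ℝ)))‖ ≤
      M * (2 * π * |(k : ℝ)| / L) := by
    refine (norm_sum_le _ _).trans ((Finset.sum_le_sum fun t _ =>
      GG_near hp hL k (xs_near hP hb t)).trans ?_)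
    rw [Finset.sum_const, Finset.card_range, nsmul_eq_mul]
  have hM' : (0 : ℝ) < M := by exact_mod_cast hM
  calc (M : ℝ)⁻¹ * _ ≤ (M : ℝ)⁻¹ * (M * (2 * π * |(k : ℝ)| / L)) := by gcongr
    _ = 2 * π * |(k : ℝ)| / L := by field_simp

/-- Every measure invariant under `x ↦ p x` is close to a periodic orbit. -/
theorem exists_per {p : ℕ} (hp : 2 ≤ p) {μ : ProbabilityMeasure TT} (hμ : μ ∈ Inv p) (K : ℕ)
    {ε : ℝ} (hε : 0 < ε) : ∃ h : ℕ, 0 < h ∧ ∃ x : ℝ, Per p h x ∧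
      ∀ k : ℤ, |k| ≤ K → ‖AA p h k x - fc (μ : Measure TT) k‖ ≤ ε := by
  obtain ⟨L, hL⟩ := exists_nat_gt (8 * π * K / ε + 1)
  have hL1 : (1 : ℝ) < L := by
    have : 0 ≤ 8 * π * K / ε := by positivity
    linarith
  have hL0 : 0 < L := by
    have : (0 : ℝ) < L := by linarith
    exact_mod_cast this
  have hLe : 2 * π * K / L ≤ ε / 4 := by
    rw [div_le_iff₀ (by linarith)]
    have h1 : 8 * π * K / ε < L := by linarith
    rw [div_lt_iff₀ hε] at h1
    linarith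
  set P := p ^ L with hPdef
  have hP : 0 < P := by positivity
  have hP' : (0 : ℝ) < P := by exact_mod_cast hP
  obtain ⟨N, hN⟩ := exists_nat_gt (4 * (P : ℝ) / ε + P)
  have hNP : (P : ℝ) < N := by
    have : 0 ≤ 4 * (P : ℝ) / ε := by positivity
    linarith
  have hN0 : (0 : ℝ) < N := by linarith
  have hNe : 2 * (P : ℝ) / N ≤ ε / 2 := by
    rw [div_le_iff₀ hN0]
    have h1 : 4 * (P : ℝ) / ε < N := by linarith
    rw [div_lt_iff₀ hε] at h1
    linarith
  set w : ℕ → ℝ := fun B => wt μ P B with hw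
  have hw0 : ∀ B, 0 ≤ w B := fun B => wt_nonneg μ P B
  have hw1 : ∑ B ∈ Finset.range P, w B = 1 := wt_sum μ hP
  set m : ℕ → ℕ := fun B => ⌊(N : ℝ) * w B⌋₊ with hm
  have hm1 : ∀ B, (m B : ℝ) ≤ N * w B := fun B => Nat.floor_le (mul_nonneg hN0.le (hw0 B))
  have hm2 : ∀ B, (N : ℝ) * w B ≤ m B + 1 := fun B => (Nat.lt_floor_add_one _).le
  set M : ℕ := ∑ B ∈ Finset.range P, m B with hMdef
  have hMr : (M : ℝ) = ∑ B ∈ Finset.range P, (m B : ℝ) := by rw [hMdef]; push_cast; rfl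
  have hMN : (M : ℝ) ≤ N := by
    rw [hMr]
    calc ∑ B ∈ Finset.range P, (m B : ℝ) ≤ ∑ B ∈ Finset.range P, (N : ℝ) * w B :=
          Finset.sum_le_sum fun B _ => hm1 B
      _ = N := by rw [← Finset.mul_sum, hw1, mul_one]
  have hNM : (N : ℝ) ≤ M + P := by
    calc (N : ℝ) = ∑ B ∈ Finset.range P, (N : ℝ) * w B := by rw [← Finset.mul_sum, hw1, mul_one]
      _ ≤ ∑ B ∈ Finset.range P, ((m B : ℝ) + 1) := Finset.sum_le_sum fun B _ => hm2 B
      _ = M + P := by
        rw [Finset.sum_add_distrib, ← hMr]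
        simp
  have hM0 : (0 : ℝ) < M := by linarith
  have hM0' : 0 < M := by exact_mod_cast hM0
  obtain ⟨x, hx, hxk⟩ := exists_block_point hp hL0 m hM0'
  refine ⟨L * M, Nat.mul_pos hL0 hM0', x, hx, fun k hk => ?_⟩
  have hkK : |(k : ℝ)| ≤ K := by exact_mod_cast hk
  have hk1 : 2 * π * |(k : ℝ)| / L ≤ ε / 4 := by
    refine le_trans ?_ hLe
    gcongr
  have h1 := (hxk k).trans hk1
  have h2 := (fc_near_wt hp hμ hL0 k).trans hk1
  set G : ℕ → ℂ := fun B => GG p L k ((B : ℝ) / ((P : ℕ) : ℝ)) with hG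
  have h3 : ‖(M : ℂ)⁻¹ * ∑ B ∈ Finset.range P, (m B : ℂ) * G B -
      ∑ B ∈ Finset.range P, (w B : ℂ) * G B‖ ≤ ε / 2 := by
    rw [Finset.mul_sum, ← Finset.sum_sub_distrib]
    have h4 : ∀ B ∈ Finset.range P, ‖(M : ℂ)⁻¹ * ((m B : ℂ) * G B) - (w B : ℂ) * G B‖ ≤
        (m B : ℝ) * (1 / M - 1 / N) + 1 / N := by
      intro B _
      have h5 : (M : ℂ)⁻¹ * ((m B : ℂ) * G B) - (w B : ℂ) * G B =
          (((m B : ℝ) / M - w B : ℝ) : ℂ) * G B := by
        push_cast
        ring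
      rw [h5, norm_mul, Complex.norm_real, Real.norm_eq_abs]
      have h6 : |(m B : ℝ) / M - w B| ≤ (m B : ℝ) * (1 / M - 1 / N) + 1 / N := by
        have h7 : (m B : ℝ) / N ≤ w B := by
          rw [div_le_iff₀ hN0]
          linarith [hm1 B]
        have h8 : w B ≤ (m B : ℝ) / N + 1 / N := by
          rw [← add_div, le_div_iff₀ hN0]
          linarith [hm2 B]
        have h9 : (m B : ℝ) / N ≤ (m B : ℝ) / M := by gcongr
        have h10 : (m B : ℝ) * (1 / M - 1 / N) = (m B : ℝ) / M - (m B : ℝ) / N := by ring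
        rw [h10, abs_le]
        constructor <;> linarith [one_div_pos.mpr hN0]
      calc |(m B : ℝ) / M - w B| * ‖G B‖ ≤ |(m B : ℝ) / M - w B| * 1 := by
            gcongr
            exact norm_GG_le _ _ _ _
        _ ≤ _ := by rw [mul_one]; exact h6
    refine (norm_sum_le _ _).trans ((Finset.sum_le_sum h4).trans ?_)
    rw [Finset.sum_add_distrib, ← Finset.sum_mul, ← hMr, Finset.sum_const, Finset.card_range,
      nsmul_eq_mul]
    have h11 : (M : ℝ) * (1 / M - 1 / N) + P * (1 / N) = (N - M + P) / N := by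
      field_simp
    rw [h11]
    refine le_trans ?_ hNe
    gcongr
    linarith
  calc ‖AA p (L * M) k x - fc (μ : Measure TT) k‖
      = ‖(AA p (L * M) k x - (M : ℂ)⁻¹ * ∑ B ∈ Finset.range P, (m B : ℂ) * G B) +
          ((M : ℂ)⁻¹ * ∑ B ∈ Finset.range P, (m B : ℂ) * G B -
            ∑ B ∈ Finset.range P, (w B : ℂ) * G B) -
          (fc (μ : Measure TT) k - ∑ B ∈ Finset.range P, (w B : ℂ) * G B)‖ := by
        congr 1
        ring
    _ ≤ ε / 4 + ε / 2 + ε / 4 := by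
        refine (norm_sub_le _ _).trans (add_le_add ((norm_add_le _ _).trans (add_le_add h1 h3)) h2)
    _ = ε := by ring

end Pool.Agent.K3h9.GM
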