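import Pool.Agent.K3h9.GM.Unit

/-!
Generic measures invariant under `x ↦ p x`.
-/

set_option autoImplicit false

open MeasureTheory Filter Topology Set
open scoped ENNReal NNReal Real

namespace Pool.Agent.K3h9.GM

/-- Lebesgue measure -/
noncomputable def leb : ProbabilityMeasure TT := ⟨AddCircle.haarAddCircle, inferInstance⟩

theorem fc_leb {k : ℤ} (hk : k ≠ 0) : fc (leb : Measure TT) k = 0 := fc_haar hk

/-- a power of `q` is `p^b Q` with a prime factor of `p` which does not divide `Q ≥ 2` -/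
theorem reduce {p q : ℕ} (hp : 2 ≤ p) (hq : 2 ≤ q) (hirr : Irrational (Real.log p / Real.log q)) :
    ∃ a b Q r : ℕ, 0 < a ∧ r.Prime ∧ r ∣ p ∧ ¬ r ∣ Q ∧ 2 ≤ Q ∧ q ^ a = p ^ b * Q := by
  have hp0 : p ≠ 0 := by omega
  have hq0 : q ≠ 0 := by omega
  have hne : p.primeFactors.Nonempty := ⟨p.minFac, Nat.mem_primeFactors.mpr
    ⟨Nat.minFac_prime (by omega), Nat.minFac_dvd p, hp0⟩⟩
  obtain ⟨r, hr, hmin⟩ := Finset.exists_min_image p.primeFactors
    (fun s => (q.factorization s : ℚ) / p.factorization s) hne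
  have hrp : r.Prime := Nat.prime_of_mem_primeFactors hr
  have hrd : r ∣ p := Nat.dvd_of_mem_primeFactors hr
  have ha : 0 < p.factorization r := hrp.factorization_pos_of_dvd hp0 hrd
  have hle : ∀ s, q.factorization r * p.factorization s ≤ p.factorization r * q.factorization s := by
    intro s
    by_cases hs : s ∈ p.primeFactors
    · have h1 := hmin s hs
      have hs0 : 0 < p.factorization s := (Nat.prime_of_mem_primeFactors hs).factorization_pos_of_dvd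
        hp0 (Nat.dvd_of_mem_primeFactors hs)
      rw [div_le_div_iff₀ (by exact_mod_cast ha) (by exact_mod_cast hs0)] at h1
      have h2 : q.factorization r * p.factorization s ≤ q.factorization s * p.factorization r := by
        exact_mod_cast h1
      rw [mul_comm (p.factorization r)]
      exact h2
    · have h1 : p.factorization s = 0 := by
        rw [← Finsupp.notMem_support_iff, Nat.support_factorization]
        exact hs
      rw [h1, mul_zero]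
      exact Nat.zero_le _
  have hdvd : p ^ q.factorization r ∣ q ^ p.factorization r := by
    rw [← Nat.factorization_le_iff_dvd (pow_ne_zero _ hp0) (pow_ne_zero _ hq0), Nat.factorization_pow,
      Nat.factorization_pow]
    intro s
    simp only [Finsupp.smul_apply, smul_eq_mul]
    exact hle s
  obtain ⟨Q, hQ⟩ := hdvd
  have hQ0 : Q ≠ 0 := by
    rintro rfl
    rw [mul_zero] at hQ
    exact pow_ne_zero _ hq0 hQ
  refine ⟨p.factorization r, q.factorization r, Q, r, ha, hrp, hrd, fun hrQ => ?_, ?_, hQ⟩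
  · have h1 : (q ^ p.factorization r).factorization r = (p ^ q.factorization r * Q).factorization r := by
      rw [hQ]
    rw [Nat.factorization_mul (pow_ne_zero _ hp0) hQ0, Nat.factorization_pow, Nat.factorization_pow] at h1
    simp only [Finsupp.smul_apply, smul_eq_mul, Finsupp.add_apply] at h1
    have h2 := hrp.factorization_pos_of_dvd hQ0 hrQ
    rw [mul_comm (q.factorization r)] at h1
    omega
  · by_contra hcon
    have hQ1 : Q = 1 := by omega
    rw [hQ1, mul_one] at hQ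
    have h1 : (p.factorization r : ℝ) * Real.log q = q.factorization r * Real.log p := by
      rw [← Real.log_pow, ← Real.log_pow]
      congr 1
      exact_mod_cast hQ
    have hlq : 0 < Real.log q := Real.log_pos (by exact_mod_cast (by omega : 1 < q))
    have hb : (q.factorization r : ℝ) ≠ 0 := by
      intro h0
      rw [h0, zero_mul] at h1
      have : (0 : ℝ) < p.factorization r := by exact_mod_cast ha
      have := mul_pos this hlq
      linarith
    apply hirr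
    refine ⟨(p.factorization r : ℚ) / q.factorization r, ?_⟩
    push_cast
    field_simp
    linarith

theorem fc_reduce {p q a b Q : ℕ} {μ : ProbabilityMeasure TT} (hμ : μ ∈ Inv p)
    (h : q ^ a = p ^ b * Q) (k : ℤ) (n : ℕ) :
    fc (μ : Measure TT) (k * (q : ℤ) ^ (a * n)) = fc (μ : Measure TT) (k * (Q : ℤ) ^ n) := by
  have h1 : (q : ℤ) ^ (a * n) = (p : ℤ) ^ (b * n) * (Q : ℤ) ^ n := by
    have h2 : q ^ (a * n) = p ^ (b * n) * Q ^ n := by
      rw [pow_mul, h, mul_pow, ← pow_mul]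
    exact_mod_cast h2
  have h3 : k * (q : ℤ) ^ (a * n) = k * (Q : ℤ) ^ n * (p : ℤ) ^ (b * n) := by
    rw [h1]
    ring
  rw [h3, fc_Inv_pow hμ]

theorem exists_a {p q : ℕ} (hp : 2 ≤ p) (hq : 2 ≤ q) (hirr : Irrational (Real.log p / Real.log q))
    {μ : ProbabilityMeasure TT} (hμ : μ ∈ Inv p) (K0 : ℕ) {δ : ℝ} (hδ : 0 < δ) {t : ℝ} (ht0 : 0 ≤ t)
    (ht1 : t ≤ 1) (K : ℕ) {η : ℝ} (hη : 0 < η) (N : ℕ) :
    ∃ κ ∈ Inv p, (∀ k : ℤ, |k| ≤ K0 → ‖fc (κ : Measure TT) k - fc (μ : Measure TT) k‖ ≤ δ) ∧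
      ∃ n, N ≤ n ∧ ∀ k : ℤ, k ≠ 0 → |k| ≤ K →
        ‖fc (κ : Measure TT) (k * (q : ℤ) ^ n) - t * fc (κ : Measure TT) k‖ < η := by
  obtain ⟨a, b, Q, r, ha, hr, hrp, hrQ, hQ, hab⟩ := reduce hp hq hirr
  set δ' : ℝ := min δ (η / 4) with hδ'
  have hδ'0 : 0 < δ' := lt_min hδ (by positivity)
  obtain ⟨κ, hκ, hκc, g, hg, hκg⟩ := exists_recurrent hp hμ (max K0 K) hδ'0 (by omega : 0 < Q)
  set η' : ℝ := min (1 / 2) (η / 2) with hη'
  have hη'0 : 0 < η' := lt_min (by norm_num) (by positivity)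
  obtain ⟨β, hβ, hβc, X, hX, hX0, B, hB, hBX⟩ := exists_beta hp hμ (max K0 K) hδ'0 hr hrp
    (hQ.trans (Nat.le_self_pow hg.ne' Q)) (fun h => hrQ (hr.dvd_of_dvd_pow h)) K hη'0 (2 * N + 1)
  -- a good time
  obtain ⟨n, hnN, hnX, hnB⟩ : ∃ n, N ≤ n ∧ n < X ∧ n ∉ B := by
    by_contra hcon
    push Not at hcon
    have h1 : Finset.Ico N X ⊆ B := by
      intro n hn
      rw [Finset.mem_Ico] at hn
      exact hcon n hn.1 hn.2
    have h2 := Finset.card_le_card h1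
    rw [Nat.card_Ico] at h2
    have h3 : (B.card : ℝ) ≤ 1 / 2 * X := hB.trans (by gcongr; exact min_le_left _ _)
    have h4 : (2 * B.card : ℝ) ≤ X := by linarith
    have h5 : 2 * B.card ≤ X := by exact_mod_cast h4
    omega
  refine ⟨mix t ht0 ht1 κ β, mix_mem_Inv ht0 ht1 hκ hβ, fun k hk => ?_, a * (g * n), ?_, fun k hk0 hk => ?_⟩
  · have hk' : |k| ≤ (max K0 K : ℕ) := hk.trans (by exact_mod_cast le_max_left _ _)
    have h1 := (hκc k hk').trans (min_le_left _ _)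
    have h2 := (hβc k hk').trans (min_le_left _ _)
    rw [fc_mix]
    have h3 : (t : ℂ) * fc (κ : Measure TT) k + ((1 - t : ℝ) : ℂ) * fc (β : Measure TT) k -
        fc (μ : Measure TT) k = (t : ℂ) * (fc (κ : Measure TT) k - fc (μ : Measure TT) k) +
        ((1 - t : ℝ) : ℂ) * (fc (β : Measure TT) k - fc (μ : Measure TT) k) := by
      push_cast
      ring
    rw [h3]
    refine (norm_add_le _ _).trans ?_
    rw [norm_mul, norm_mul, Complex.norm_real, Complex.norm_real, Real.norm_eq_abs, Real.norm_eq_abs,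
      abs_of_nonneg ht0, abs_of_nonneg (by linarith : 0 ≤ 1 - t)]
    calc t * _ + (1 - t) * _ ≤ t * δ + (1 - t) * δ := by
          have : 0 ≤ 1 - t := by linarith
          gcongr
      _ = δ := by ring
  · calc N ≤ n := hnN
      _ ≤ g * n := Nat.le_mul_of_pos_left n hg
      _ ≤ a * (g * n) := Nat.le_mul_of_pos_left _ ha
  · have hk' : |k| ≤ (max K0 K : ℕ) := hk.trans (by exact_mod_cast le_max_right _ _)
    have h1 := (hκc k hk').trans (min_le_right _ _)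
    have h2 := (hβc k hk').trans (min_le_right _ _)
    have h3 := (hBX n hnX hnB k hk0 hk).trans_le (min_le_right _ _)
    push_cast at h3
    rw [fc_reduce (mix_mem_Inv ht0 ht1 hκ hβ) hab, fc_mix, fc_mix, pow_mul, hκg]
    have h4 : (t : ℂ) * fc (κ : Measure TT) k + ((1 - t : ℝ) : ℂ) * fc (β : Measure TT) (k * ((Q : ℤ) ^ g) ^ n) -
        t * ((t : ℂ) * fc (κ : Measure TT) k + ((1 - t : ℝ) : ℂ) * fc (β : Measure TT) k) =
        ((t * (1 - t) : ℝ) : ℂ) * ((fc (κ : Measure TT) k - fc (μ : Measure TT) k) -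
          (fc (β : Measure TT) k - fc (μ : Measure TT) k)) +
        ((1 - t : ℝ) : ℂ) * fc (β : Measure TT) (k * ((Q : ℤ) ^ g) ^ n) := by
      push_cast
      ring
    rw [h4]
    have ht2 : 0 ≤ t * (1 - t) := mul_nonneg ht0 (by linarith)
    have ht3 : t * (1 - t) ≤ 1 := by nlinarith
    calc _ ≤ (t * (1 - t)) * (‖fc (κ : Measure TT) k - fc (μ : Measure TT) k‖ +
          ‖fc (β : Measure TT) k - fc (μ : Measure TT) k‖) +
          (1 - t) * ‖fc (β : Measure TT) (k * ((Q : ℤ) ^ g) ^ n)‖ := by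
          refine (norm_add_le _ _).trans ?_
          rw [norm_mul, norm_mul, Complex.norm_real, Complex.norm_real, Real.norm_eq_abs,
            Real.norm_eq_abs, abs_of_nonneg ht2, abs_of_nonneg (by linarith : 0 ≤ 1 - t)]
          gcongr
          exact norm_sub_le _ _
      _ ≤ 1 * (η / 4 + η / 4) + 1 * ‖fc (β : Measure TT) (k * ((Q : ℤ) ^ g) ^ n)‖ := by
          gcongr
          linarith
      _ < 1 * (η / 4 + η / 4) + 1 * (η / 2) := by gcongr
      _ = η := by ring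

theorem exists_c {p q : ℕ} (hp : 2 ≤ p) (hq : 2 ≤ q) (hirr : Irrational (Real.log p / Real.log q))
    {μ : ProbabilityMeasure TT} (hμ : μ ∈ Inv p) (K0 : ℕ) {δ : ℝ} (hδ : 0 < δ)
    (K : ℕ) {η : ℝ} (hη : 0 < η) (N : ℕ) :
    ∃ κ ∈ Inv p, (∀ k : ℤ, |k| ≤ K0 → ‖fc (κ : Measure TT) k - fc (μ : Measure TT) k‖ ≤ δ) ∧
      ∃ X, N ≤ X ∧ ∃ B : Finset ℕ, (B.card : ℝ) ≤ η * X ∧
        ∀ n < X, n ∉ B → ∀ k : ℤ, k ≠ 0 → |k| ≤ K → ‖fc (κ : Measure TT) (k * (q : ℤ) ^ n)‖ < η := by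
  classical
  obtain ⟨a, b, Q, r, ha, hr, hrp, hrQ, hQ, hab⟩ := reduce hp hq hirr
  obtain ⟨β, hβ, hβc, X, hX, hX0, B, hB, hBX⟩ := exists_beta hp hμ K0 hδ hr hrp hQ hrQ (K * q ^ a) hη N
  refine ⟨β, hβ, hβc, a * X, hX.trans (Nat.le_mul_of_pos_left X ha),
    B.biUnion fun n => (Finset.range a).image fun j => a * n + j, ?_, fun n hn hnB k hk0 hk => ?_⟩
  · have h1 : (B.biUnion fun n => (Finset.range a).image fun j => a * n + j).card ≤ B.card * a :=
      Finset.card_biUnion_le_card_mul _ _ _ fun n _ => Finset.card_image_le.trans (by simp)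
    have h2 : ((B.biUnion fun n => (Finset.range a).image fun j => a * n + j).card : ℝ) ≤ B.card * a := by
      exact_mod_cast h1
    refine h2.trans ?_
    push_cast
    calc (B.card : ℝ) * a ≤ η * X * a := by gcongr
      _ = η * (a * X) := by ring
  · have h1 : n / a < X := Nat.div_lt_of_lt_mul hn
    have h2 : n / a ∉ B := by
      intro hcon
      apply hnB
      rw [Finset.mem_biUnion]
      refine ⟨n / a, hcon, ?_⟩
      rw [Finset.mem_image]
      exact ⟨n % a, Finset.mem_range.mpr (Nat.mod_lt _ ha), Nat.div_add_mod n a⟩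
    have h3 : k * (q : ℤ) ^ n = k * (q : ℤ) ^ (n % a) * (q : ℤ) ^ (a * (n / a)) := by
      rw [mul_assoc, ← pow_add, Nat.mod_add_div]
    rw [h3, fc_reduce hβ hab]
    apply hBX (n / a) h1 h2
    · exact mul_ne_zero hk0 (pow_ne_zero _ (by exact_mod_cast (by omega : q ≠ 0)))
    · rw [abs_mul, abs_pow, Nat.abs_cast]
      have h4 : q ^ (n % a) ≤ q ^ a := Nat.pow_le_pow_right (by omega) (Nat.mod_lt _ ha).le
      have h5 : (q : ℤ) ^ (n % a) ≤ (q : ℤ) ^ a := by exact_mod_cast h4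
      calc |k| * (q : ℤ) ^ (n % a) ≤ K * (q : ℤ) ^ a := by gcongr
        _ = ((K * q ^ a : ℕ) : ℤ) := by push_cast; rfl

theorem isClosed_Inv (p : ℕ) : IsClosed (Inv p) := by
  have h1 : Inv p = ⋂ k : ℤ, {μ : ProbabilityMeasure TT |
      fc (μ : Measure TT) (k * p) = fc (μ : Measure TT) k} := by
    ext μ
    rw [mem_iInter]
    exact ⟨fun h k => fc_Inv h k, fun h => img_eq_of_fc h⟩
  rw [h1]
  exact isClosed_iInter fun k => isClosed_eq (continuous_fc _) (continuous_fc _)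

theorem img_mem_Inv {p : ℕ} {μ : ProbabilityMeasure TT} (hμ : μ ∈ Inv p) (m : ℕ) : img m μ ∈ Inv p := by
  apply img_eq_of_fc
  intro k
  rw [fc_img, fc_img, mul_right_comm, fc_Inv hμ]

theorem continuous_img (m : ℕ) : Continuous (img m) := by
  rw [isClosedEmbedding_fc.isInducing.continuous_iff]
  refine continuous_pi fun k => ?_
  have h1 : (fun μ => fc (img m μ : Measure TT) k) = fun μ : ProbabilityMeasure TT => fc (μ : Measure TT) (k * m) := by
    funext μ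
    exact fc_img m μ k
  change Continuous fun μ => fc (img m μ : Measure TT) k
  rw [h1]
  exact continuous_fc _

theorem dense_of_close {p : ℕ} {S : Set (Inv p)}
    (h : ∀ μ ∈ Inv p, ∀ (K : ℕ) (δ : ℝ), 0 < δ → ∃ κ : Inv p, κ ∈ S ∧
      ∀ k : ℤ, |k| ≤ K → ‖fc ((κ : ProbabilityMeasure TT) : Measure TT) k - fc (μ : Measure TT) k‖ ≤ δ) :
    Dense S := by
  intro x
  rw [mem_closure_iff_nhds]
  intro U hU
  rw [nhds_subtype_eq_comap, mem_comap] at hU
  obtain ⟨W, hW, hWU⟩ := hU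
  obtain ⟨K, ε, hε, hK⟩ := nhds_fc hW
  obtain ⟨κ, hκS, hκ⟩ := h x x.2 K (ε / 2) (by positivity)
  refine ⟨κ, hWU ?_, hκS⟩
  apply hK
  intro k _ hk
  exact (hκ k hk).trans_lt (by linarith)

/-- condition (a) -/
def UA (p q : ℕ) (t : ℝ) (K : ℕ) (η : ℝ) (N : ℕ) : Set (Inv p) :=
  {μ | ∃ n, N ≤ n ∧ ∀ k ∈ (Finset.Icc (-(K : ℤ)) K).erase 0,
    ‖fc ((μ : ProbabilityMeasure TT) : Measure TT) (k * (q : ℤ) ^ n) -
      t * fc ((μ : ProbabilityMeasure TT) : Measure TT) k‖ < η}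

/-- condition (c) -/
def UC (p q : ℕ) (K : ℕ) (η : ℝ) (N : ℕ) : Set (Inv p) :=
  {μ | ∃ X, N ≤ X ∧ ∃ B : Finset ℕ, (B.card : ℝ) ≤ η * X ∧ ∀ n ∈ Finset.range X \ B,
    ∀ k ∈ (Finset.Icc (-(K : ℤ)) K).erase 0,
      ‖fc ((μ : ProbabilityMeasure TT) : Measure TT) (k * (q : ℤ) ^ n)‖ < η}

/-- condition (b) -/
def UB (p D c N : ℕ) (V : Set (ProbabilityMeasure TT)) : Set (Inv p) :=
  {μ | ∃ l : ℕ, N ≤ l ∧ l.Prime ∧ l ≡ c [MOD D] ∧ img l μ ∈ V}

theorem mem_erase {K : ℕ} {k : ℤ} : k ∈ (Finset.Icc (-(K : ℤ)) K).erase 0 ↔ k ≠ 0 ∧ |k| ≤ K := by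
  rw [Finset.mem_erase, Finset.mem_Icc, abs_le]

theorem isOpen_UA (p q : ℕ) (t : ℝ) (K : ℕ) (η : ℝ) (N : ℕ) : IsOpen (UA p q t K η N) := by
  have h1 : UA p q t K η N = ⋃ n : ℕ, ⋃ _ : N ≤ n, ⋂ k ∈ (Finset.Icc (-(K : ℤ)) K).erase 0,
      {μ : Inv p | ‖fc ((μ : ProbabilityMeasure TT) : Measure TT) (k * (q : ℤ) ^ n) -
      t * fc ((μ : ProbabilityMeasure TT) : Measure TT) k‖ < η} := by
    ext μ
    simp only [UA, mem_ofPred_eq, mem_iUnion, mem_iInter, exists_prop]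
  rw [h1]
  refine isOpen_iUnion fun n => isOpen_iUnion fun _ => isOpen_biInter_finset fun k _ => ?_
  exact isOpen_lt ((((continuous_fc _).comp continuous_subtype_val).sub
    (continuous_const.mul ((continuous_fc _).comp continuous_subtype_val))).norm) continuous_const

theorem isOpen_UC (p q : ℕ) (K : ℕ) (η : ℝ) (N : ℕ) : IsOpen (UC p q K η N) := by
  have h1 : UC p q K η N = ⋃ X : ℕ, ⋃ _ : N ≤ X, ⋃ B : Finset ℕ, ⋃ _ : (B.card : ℝ) ≤ η * X,
      ⋂ n ∈ Finset.range X \ B, ⋂ k ∈ (Finset.Icc (-(K : ℤ)) K).erase 0,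
      {μ : Inv p | ‖fc ((μ : ProbabilityMeasure TT) : Measure TT) (k * (q : ℤ) ^ n)‖ < η} := by
    ext μ
    simp only [UC, mem_ofPred_eq, mem_iUnion, mem_iInter, exists_prop]
  rw [h1]
  refine isOpen_iUnion fun X => isOpen_iUnion fun _ => isOpen_iUnion fun B => isOpen_iUnion fun _ =>
    isOpen_biInter_finset fun n _ => isOpen_biInter_finset fun k _ => ?_
  exact isOpen_lt (((continuous_fc _).comp continuous_subtype_val).norm) continuous_const

theorem isOpen_UB (p D c N : ℕ) {V : Set (ProbabilityMeasure TT)} (hV : IsOpen V) :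
    IsOpen (UB p D c N V) := by
  have h1 : UB p D c N V = ⋃ l : ℕ, ⋃ _ : N ≤ l, ⋃ _ : l.Prime, ⋃ _ : l ≡ c [MOD D],
      {μ : Inv p | img l μ ∈ V} := by
    ext μ
    simp only [UB, mem_ofPred_eq, mem_iUnion, exists_prop]
  rw [h1]
  refine isOpen_iUnion fun l => isOpen_iUnion fun _ => isOpen_iUnion fun _ => isOpen_iUnion fun _ => ?_
  exact hV.preimage ((continuous_img l).comp continuous_subtype_val)

theorem dense_UA {p q : ℕ} (hp : 2 ≤ p) (hq : 2 ≤ q) (hirr : Irrational (Real.log p / Real.log q))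
    {t : ℝ} (ht0 : 0 ≤ t) (ht1 : t ≤ 1) (K : ℕ) {η : ℝ} (hη : 0 < η) (N : ℕ) :
    Dense (UA p q t K η N) := by
  apply dense_of_close
  intro μ hμ K0 δ hδ
  obtain ⟨κ, hκ, hc, n, hn, hk⟩ := exists_a hp hq hirr hμ K0 hδ ht0 ht1 K hη N
  exact ⟨⟨κ, hκ⟩, ⟨n, hn, fun k hk' => hk k (mem_erase.mp hk').1 (mem_erase.mp hk').2⟩, hc⟩

theorem dense_UC {p q : ℕ} (hp : 2 ≤ p) (hq : 2 ≤ q) (hirr : Irrational (Real.log p / Real.log q))
    (K : ℕ) {η : ℝ} (hη : 0 < η) (N : ℕ) : Dense (UC p q K η N) := by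
  apply dense_of_close
  intro μ hμ K0 δ hδ
  obtain ⟨κ, hκ, hc, X, hX, B, hB, hk⟩ := exists_c hp hq hirr hμ K0 hδ K hη N
  refine ⟨⟨κ, hκ⟩, ⟨X, hX, B, hB, fun n hn k hk' => ?_⟩, hc⟩
  rw [Finset.mem_sdiff, Finset.mem_range] at hn
  exact hk n hn.1 hn.2 k (mem_erase.mp hk').1 (mem_erase.mp hk').2

theorem dense_UB {p : ℕ} (hp : 2 ≤ p) {D c : ℕ} (hD : 0 < D) (hc : Nat.Coprime c D) (N : ℕ)
    {V : Set (ProbabilityMeasure TT)} (hV : IsOpen V) (hne : (V ∩ Inv p).Nonempty) :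
    Dense (UB p D c N V) := by
  apply dense_of_close
  intro μ hμ K0 δ hδ
  obtain ⟨ν, hνV, hν⟩ := hne
  obtain ⟨K, ε, hε, hK⟩ := nhds_fc (hV.mem_nhds hνV)
  obtain ⟨κ, hκ, hcl, l, hl1, hl2, hl3, hl⟩ := exists_orbit hp hμ hν K0 K hδ
    (by positivity : 0 < ε / 2) hD hc N
  refine ⟨⟨κ, hκ⟩, ⟨l, hl1, hl2, hl3, ?_⟩, hcl⟩
  apply hK
  intro k _ hk
  exact (hl k hk).trans_lt (by linarith)

instance : SecondCountableTopology (ProbabilityMeasure TT) :=
  isClosedEmbedding_fc.isEmbedding.secondCountableTopology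

instance (p : ℕ) : CompactSpace (Inv p) := isCompact_iff_compactSpace.mp (isClosed_Inv p).isCompact

instance : T2Space (ProbabilityMeasure TT) := isClosedEmbedding_fc.isEmbedding.t2Space

/-- the indices of the conditions (a) -/
abbrev IA (p : ℕ) := {x : (ℕ × ℚ) × ℕ × ℕ × ℕ // 2 ≤ x.1.1 ∧
  Irrational (Real.log p / Real.log x.1.1) ∧ 0 ≤ x.1.2 ∧ x.1.2 ≤ 1}

/-- the indices of the conditions (c) -/
abbrev IC (p : ℕ) := {x : ℕ × ℕ × ℕ × ℕ // 2 ≤ x.1 ∧ Irrational (Real.log p / Real.log x.1)}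

/-- the indices of the conditions (b) -/
abbrev IB (p : ℕ) := {x : (ℕ × ℕ × ℕ) × TopologicalSpace.countableBasis (ProbabilityMeasure TT) //
  0 < x.1.1 ∧ Nat.Coprime x.1.2.1 x.1.1 ∧ (x.2.1 ∩ Inv p).Nonempty}

instance : Countable (TopologicalSpace.countableBasis (ProbabilityMeasure TT)) :=
  (TopologicalSpace.countable_countableBasis _).to_subtype

/-- the sets of the conditions (a) -/
def SA (p : ℕ) (i : IA p) : Set (Inv p) :=
  UA p i.1.1.1 i.1.1.2 i.1.2.1 (1 / ((i.1.2.2.1 : ℝ) + 1)) i.1.2.2.2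

/-- the sets of the conditions (c) -/
def SC (p : ℕ) (i : IC p) : Set (Inv p) := UC p i.1.1 i.1.2.1 (1 / ((i.1.2.2.1 : ℝ) + 1)) i.1.2.2.2

/-- the sets of the conditions (b) -/
def SB (p : ℕ) (i : IB p) : Set (Inv p) := UB p i.1.1.1 i.1.1.2.1 i.1.1.2.2 i.1.2.1

theorem isOpen_SA (p : ℕ) (i : IA p) : IsOpen (SA p i) := isOpen_UA _ _ _ _ _ _

theorem isOpen_SC (p : ℕ) (i : IC p) : IsOpen (SC p i) := isOpen_UC _ _ _ _ _

theorem isOpen_SB (p : ℕ) (i : IB p) : IsOpen (SB p i) :=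
  isOpen_UB _ _ _ _ ((TopologicalSpace.isBasis_countableBasis _).isOpen i.1.2.2)

theorem dense_SA {p : ℕ} (hp : 2 ≤ p) (i : IA p) : Dense (SA p i) :=
  dense_UA hp i.2.1 i.2.2.1 (by exact_mod_cast i.2.2.2.1) (by exact_mod_cast i.2.2.2.2) _
    (by positivity) _

theorem dense_SC {p : ℕ} (hp : 2 ≤ p) (i : IC p) : Dense (SC p i) :=
  dense_UC hp i.2.1 i.2.2 _ (by positivity) _

theorem dense_SB {p : ℕ} (hp : 2 ≤ p) (i : IB p) : Dense (SB p i) :=
  dense_UB hp i.2.1 i.2.2.1 _ ((TopologicalSpace.isBasis_countableBasis _).isOpen i.1.2.2) i.2.2.2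

/-- the generic set -/
def Gen (p : ℕ) : Set (Inv p) := (⋂ i, SA p i) ∩ ((⋂ i, SC p i) ∩ (⋂ i, SB p i))

theorem isGdelta_Gen (p : ℕ) : IsGδ (Gen p) :=
  (IsGδ.iInter_of_isOpen (isOpen_SA p)).inter
    ((IsGδ.iInter_of_isOpen (isOpen_SC p)).inter (IsGδ.iInter_of_isOpen (isOpen_SB p)))

theorem dense_Gen {p : ℕ} (hp : 2 ≤ p) : Dense (Gen p) := by
  have g1 := IsGδ.iInter_of_isOpen (isOpen_SA p)
  have g2 := IsGδ.iInter_of_isOpen (isOpen_SC p)
  have g3 := IsGδ.iInter_of_isOpen (isOpen_SB p)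
  have h1 := dense_iInter_of_isOpen (isOpen_SA p) (dense_SA hp)
  have h2 := dense_iInter_of_isOpen (isOpen_SC p) (dense_SC hp)
  have h3 := dense_iInter_of_isOpen (isOpen_SB p) (dense_SB hp)
  exact h1.inter_of_Gδ g1 (g2.inter g3) (h2.inter_of_Gδ g2 g3 h3)

theorem Gen_b {p : ℕ} {μ : Inv p} (hμ : μ ∈ Gen p) {D c : ℕ} (hD : 0 < D) (hc : Nat.Coprime c D)
    (ν : ProbabilityMeasure TT) :
    MapClusterPt ν (atTop ⊓ 𝓟 {l : ℕ | l.Prime ∧ l ≡ c [MOD D]}) (fun l => img l μ) ↔ ν ∈ Inv p := by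
  constructor
  · intro h
    rw [← (isClosed_Inv p).closure_eq, mem_closure_iff_frequently]
    rw [mapClusterPt_iff_frequently] at h
    rw [Filter.frequently_iff]
    intro W hW
    obtain ⟨l, hl⟩ := (h W hW).exists
    exact ⟨img l μ, hl, img_mem_Inv μ.2 l⟩
  · intro hν
    rw [mapClusterPt_iff_frequently]
    intro W hW
    rw [Filter.frequently_inf_principal, Filter.frequently_atTop]
    intro N
    obtain ⟨V, hV, hνV, hVW⟩ := (TopologicalSpace.isBasis_countableBasis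
      (ProbabilityMeasure TT)).mem_nhds_iff.mp hW
    obtain ⟨l, hl1, hl2, hl3, hl⟩ := mem_iInter.mp hμ.2.2 ⟨((D, c, N), ⟨V, hV⟩), hD, hc, ⟨ν, hνV, hν⟩⟩
    exact ⟨l, hl1, ⟨hl2, hl3⟩, hVW hl⟩

theorem Gen_c {p q : ℕ} (hq : 2 ≤ q) (hirr : Irrational (Real.log p / Real.log q))
    {μ : Inv p} (hμ : μ ∈ Gen p) {W : Set (ProbabilityMeasure TT)} (hW : W ∈ 𝓝 leb) {ε : ℝ}
    (hε : 0 < ε) (N : ℕ) : ∃ X, N ≤ X ∧ ({n : ℕ | n < X ∧ img (q ^ n) μ ∉ W}.ncard : ℝ) ≤ ε * X := by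
  obtain ⟨K, ε', hε', hK⟩ := nhds_fc hW
  obtain ⟨j, hj⟩ := exists_nat_one_div_lt (lt_min hε hε')
  obtain ⟨X, hX, B, hB, hBX⟩ := mem_iInter.mp hμ.2.1 ⟨(q, K, j, N), hq, hirr⟩
  refine ⟨X, hX, ?_⟩
  have h1 : {n : ℕ | n < X ∧ img (q ^ n) μ ∉ W} ⊆ B := by
    rintro n ⟨hn, hnW⟩
    by_contra hnB
    apply hnW
    apply hK
    intro k hk0 hk
    have h2 := hBX n (by rw [Finset.mem_sdiff, Finset.mem_range]; exact ⟨hn, hnB⟩) k
      (mem_erase.mpr ⟨hk0, hk⟩)
    rw [fc_img, fc_leb hk0, sub_zero]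
    push_cast
    exact h2.trans (hj.trans_le (min_le_right _ _))
  have h2 : {n : ℕ | n < X ∧ img (q ^ n) μ ∉ W}.ncard ≤ B.card := by
    have h3 := Set.ncard_le_ncard h1 B.finite_toSet
    rwa [Set.ncard_coe_finset] at h3
  calc ({n : ℕ | n < X ∧ img (q ^ n) μ ∉ W}.ncard : ℝ) ≤ B.card := by exact_mod_cast h2
    _ ≤ 1 / ((j : ℝ) + 1) * X := hB
    _ ≤ ε * X := by
      gcongr
      exact (hj.trans_le (min_le_left _ _)).le

theorem Gen_a {p q : ℕ} (hq : 2 ≤ q) (hirr : Irrational (Real.log p / Real.log q))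
    {μ : Inv p} (hμ : μ ∈ Gen p) {t : ℝ} (ht0 : 0 ≤ t) (ht1 : t ≤ 1) :
    MapClusterPt (mix t ht0 ht1 μ leb) atTop fun n : ℕ => img (q ^ n) μ := by
  rw [mapClusterPt_iff_frequently]
  intro W hW
  rw [frequently_atTop]
  intro N
  obtain ⟨K, ε, hε, hK⟩ := nhds_fc hW
  obtain ⟨s, hs0, hs1, hst⟩ : ∃ s : ℚ, 0 ≤ s ∧ s ≤ 1 ∧ |(s : ℝ) - t| < ε / 2 := by
    rcases ht0.eq_or_lt with h0 | h0
    · exact ⟨0, le_rfl, zero_le_one, by rw [← h0]; simpa using hε⟩
    · obtain ⟨s, h1, h2⟩ := exists_rat_btwn (max_lt h0 (by linarith : t - ε / 2 < t))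
      refine ⟨s, ?_, ?_, ?_⟩
      · have := (le_max_left 0 (t - ε / 2)).trans h1.le
        exact_mod_cast this
      · have := h2.le.trans ht1
        exact_mod_cast this
      · have := (le_max_right 0 (t - ε / 2)).trans_lt h1
        rw [abs_lt]
        constructor <;> linarith
  obtain ⟨j, hj⟩ := exists_nat_one_div_lt (by positivity : 0 < ε / 2)
  obtain ⟨n, hn, hnk⟩ := mem_iInter.mp hμ.1 ⟨((q, s), K, j, N), hq, hirr, hs0, hs1⟩
  refine ⟨n, hn, hK _ fun k hk0 hk => ?_⟩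
  have h1 := (hnk k (mem_erase.mpr ⟨hk0, hk⟩)).trans hj
  rw [fc_img, fc_mix, fc_leb hk0, mul_zero, add_zero]
  push_cast at h1 ⊢
  have h2 : fc ((μ : ProbabilityMeasure TT) : Measure TT) (k * (q : ℤ) ^ n) -
      t * fc ((μ : ProbabilityMeasure TT) : Measure TT) k =
      (fc ((μ : ProbabilityMeasure TT) : Measure TT) (k * (q : ℤ) ^ n) -
        (s : ℂ) * fc ((μ : ProbabilityMeasure TT) : Measure TT) k) +
      (((s : ℝ) - t : ℝ) : ℂ) * fc ((μ : ProbabilityMeasure TT) : Measure TT) k := by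
    push_cast
    ring
  rw [h2]
  refine (norm_add_le _ _).trans_lt ?_
  rw [norm_mul, Complex.norm_real, Real.norm_eq_abs]
  have h3 := norm_fc_le (μ : ProbabilityMeasure TT) k
  have h4 : |(s : ℝ) - t| * ‖fc ((μ : ProbabilityMeasure TT) : Measure TT) k‖ ≤ |(s : ℝ) - t| * 1 := by
    gcongr
  linarith

end Pool.Agent.K3h9.GM
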