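import Pool.Agent.K3h9.GM.Val

/-!
Periodic points whose denominators are repunits `(p^n - 1) / (p - 1)`, `n` prime.
-/

set_option autoImplicit false

open MeasureTheory Filter Topology Set
open scoped ENNReal NNReal Real

namespace Pool.Agent.K3h9.GM

/-- the repunit `1 + p + … + p^(n-1)` -/
def rr (p n : ℕ) : ℕ := ∑ i ∈ Finset.range n, p ^ i

theorem rr_mul {p : ℕ} (hp : 2 ≤ p) (n : ℕ) : rr p n * (p - 1) + 1 = p ^ n := by
  have h := geom_sum_mul_add (p - 1) n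
  have h1 : p - 1 + 1 = p := by omega
  rw [h1] at h
  exact h

theorem rr_pos {p n : ℕ} (hp : 2 ≤ p) (hn : 0 < n) : 0 < rr p n := by
  have h := rr_mul hp n
  have h1 : 2 ≤ p ^ n := hp.trans (Nat.le_self_pow hn.ne' p)
  rcases Nat.eq_zero_or_pos (rr p n) with h0 | h0
  · rw [h0] at h
    omega
  · exact h0

/-- the prime factors of the repunits of prime length `n` are larger than `n` -/
theorem prime_dvd_rr {p n l : ℕ} (hp : 2 ≤ p) (hn : n.Prime) (hpn : p < n) (hl : l.Prime)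
    (h : l ∣ rr p n) : n < l := by
  have hF := Fact.mk hl
  have h1 : ((rr p n : ℕ) : ZMod l) = 0 := (ZMod.natCast_eq_zero_iff _ _).mpr h
  have h2 : (p : ZMod l) ^ n = 1 := by
    have h3 : ((p ^ n : ℕ) : ZMod l) = ((rr p n * (p - 1) + 1 : ℕ) : ZMod l) := by rw [rr_mul hp]
    push_cast at h3
    rw [h1, zero_mul, zero_add] at h3
    exact h3
  rcases (Nat.dvd_prime hn).mp (orderOf_dvd_of_pow_eq_one h2) with h4 | h4
  · rw [orderOf_eq_one_iff] at h4
    exfalso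
    have h5 : ((rr p n : ℕ) : ZMod l) = (n : ZMod l) := by
      unfold rr
      push_cast
      rw [h4]
      simp
    rw [h1] at h5
    have h6 : l ∣ n := (ZMod.natCast_eq_zero_iff _ _).mp h5.symm
    have h7 : l = n := (Nat.prime_dvd_prime_iff_eq hl hn).mp h6
    subst h7
    have h8 : ((p : ℕ) : ZMod l) = ((1 : ℕ) : ZMod l) := by
      rw [h4]
      simp
    rw [ZMod.natCast_eq_natCast_iff] at h8
    have h9 := Nat.ModEq.eq_of_lt_of_lt h8 hpn (by omega)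
    omega
  · have h0 : (p : ZMod l) ≠ 0 := by
      intro h0
      rw [h0, zero_pow hn.ne_zero] at h2
      exact zero_ne_one h2
    have h5 := ZMod.orderOf_dvd_card_sub_one h0
    rw [h4] at h5
    have h6 := Nat.le_of_dvd (by have := hl.two_le; omega) h5
    omega

theorem coprime_rr {p n Q : ℕ} (hp : 2 ≤ p) (hn : n.Prime) (hpn : p < n) (hQ : Q ≤ n) (hQ0 : 0 < Q) :
    Nat.Coprime (rr p n) Q := by
  by_contra hcon
  obtain ⟨l, hl, h1, h2⟩ := Nat.Prime.not_coprime_iff_dvd.mp hcon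
  have h3 := prime_dvd_rr hp hn hpn hl h1
  have h4 := Nat.le_of_dvd hQ0 h2
  omega

/-- among `n` consecutive numbers one is prime to the repunit -/
theorem exists_coprime {p n : ℕ} (hp : 2 ≤ p) (hn : n.Prime) (hpn : p < n) (a : ℕ) :
    ∃ c < n, Nat.Coprime (a + c) (rr p n) := by
  by_contra hcon
  push Not at hcon
  have h1 : ∀ c, ∃ l, c < n → l.Prime ∧ l ∣ a + c ∧ l ∣ rr p n := by
    intro c
    by_cases hc : c < n
    · obtain ⟨l, hl, h1, h2⟩ := Nat.Prime.not_coprime_iff_dvd.mp (hcon c hc)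
      exact ⟨l, fun _ => ⟨hl, h1, h2⟩⟩
    · exact ⟨0, fun h => absurd h hc⟩
  choose f hf using h1
  have hR := rr_pos hp hn.pos
  have h2 : (Finset.range n).card ≤ (rr p n).primeFactors.card := by
    apply Finset.card_le_card_of_injOn f
    · intro c hc
      obtain ⟨h3, h4, h5⟩ := hf c (Finset.mem_range.mp hc)
      exact Nat.mem_primeFactors.mpr ⟨h3, h5, hR.ne'⟩
    · have key : ∀ c c', c < n → c' < n → c < c' → f c = f c' → False := by
        intro c c' hc hc' hlt heq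
        obtain ⟨h3, h4, h5⟩ := hf c hc
        obtain ⟨h3', h4', h5'⟩ := hf c' hc'
        rw [← heq] at h4'
        have h6 : f c ∣ (a + c') - (a + c) := Nat.dvd_sub h4' h4
        have h7 := Nat.le_of_dvd (by omega) h6
        have h8 := prime_dvd_rr hp hn hpn h3 h5
        omega
      intro c hc c' hc' heq
      rw [Finset.mem_coe, Finset.mem_range] at hc hc'
      rcases lt_trichotomy c c' with hlt | h | hlt
      · exact (key c c' hc hc' hlt heq).elim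
      · exact h
      · exact (key c' c hc' hc hlt heq.symm).elim
  rw [Finset.card_range] at h2
  have h3 : n ^ (rr p n).primeFactors.card ≤ ∏ l ∈ (rr p n).primeFactors, l := by
    apply Finset.pow_card_le_prod
    intro l hl
    rw [Nat.mem_primeFactors] at hl
    exact (prime_dvd_rr hp hn hpn hl.1 hl.2.1).le
  have h4 : ∏ l ∈ (rr p n).primeFactors, l ≤ rr p n := Nat.le_of_dvd hR (Nat.prod_primeFactors_dvd _)
  have h5 : n ^ n ≤ n ^ (rr p n).primeFactors.card := Nat.pow_le_pow_right hn.pos h2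
  have h6 : rr p n < p ^ n := by
    have h7 := rr_mul hp n
    have h8 : rr p n * 1 ≤ rr p n * (p - 1) := Nat.mul_le_mul_left _ (by omega)
    omega
  have h7 : p ^ n ≤ n ^ n := Nat.pow_le_pow_left hpn.le n
  omega

theorem AA_add_int (p n : ℕ) (k : ℤ) (x : ℝ) (m : ℤ) : AA p n k (x + m) = AA p n k x := by
  unfold AA
  congr 1
  refine Finset.sum_congr rfl fun i _ => ?_
  have h1 : (k : ℝ) * ((p : ℝ) ^ i * (x + m)) = k * ((p : ℝ) ^ i * x) + ((k * (p : ℤ) ^ i * m : ℤ) : ℝ) := by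
    push_cast
    ring
  rw [h1, ee_add_int]

theorem exists_per' {p : ℕ} (hp : 2 ≤ p) {μ : ProbabilityMeasure TT} (hμ : μ ∈ Inv p) (K : ℕ)
    {ε : ℝ} (hε : 0 < ε) : ∃ h : ℕ, 0 < h ∧ ∃ x : ℝ, 0 ≤ x ∧ Per p h x ∧
      ∀ k : ℤ, |k| ≤ K → ‖AA p h k x - fc (μ : Measure TT) k‖ ≤ ε := by
  obtain ⟨h, hh, x, hx, hxk⟩ := exists_per hp hμ K hε
  refine ⟨h, hh, Int.fract x, Int.fract_nonneg x, ?_, fun k hk => ?_⟩
  · obtain ⟨m, hm⟩ := hx
    refine ⟨m - ((p : ℤ) ^ h - 1) * ⌊x⌋, ?_⟩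
    unfold Int.fract
    rw [mul_sub, hm]
    push_cast
    ring
  · have h1 : AA p h k x = AA p h k (Int.fract x) := by
      have h2 := AA_add_int p h k (Int.fract x) ⌊x⌋
      rw [Int.fract_add_floor] at h2
      exact h2
    rw [← h1]
    exact hxk k hk

/-- points at distance `≤ p n / p^n` have nearly the same averages over `n` steps -/
theorem AA_close {p : ℕ} (hp : 2 ≤ p) (K : ℕ) {δ : ℝ} (hδ : 0 < δ) :
    ∃ n0 : ℕ, ∀ n ≥ n0, 0 < n → ∀ x y : ℝ, |x - y| ≤ p * n / (p : ℝ) ^ n → ∀ k : ℤ, |k| ≤ K →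
      ‖AA p n k x - AA p n k y‖ ≤ δ := by
  have hp' : (2 : ℝ) ≤ p := by exact_mod_cast hp
  have h1 : Tendsto (fun s : ℕ => 4 * π * K * p * (((s + 1 : ℕ) : ℝ) ^ 2 / (2 : ℝ) ^ (s + 1)) + 2 / (s : ℝ))
      atTop (𝓝 (4 * π * K * p * 0 + 0)) := by
    apply Tendsto.add
    · apply Tendsto.const_mul
      exact (tendsto_add_atTop_iff_nat 1).mpr (tendsto_pow_const_div_const_pow_of_one_lt 2 one_lt_two)
    · exact tendsto_const_div_atTop_nhds_zero_nat 2
  rw [mul_zero, zero_add] at h1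
  obtain ⟨S, hS⟩ := eventually_atTop.mp (h1.eventually_le_const hδ)
  refine ⟨(S + 1) ^ 2, fun n hn hn0 x y hxy k hk => ?_⟩
  have hkK : |(k : ℝ)| ≤ K := by exact_mod_cast hk
  set s := Nat.sqrt n with hs
  have hsS : S + 1 ≤ s := by
    rw [hs, Nat.le_sqrt]
    nlinarith
  have hs1 : s * s ≤ n := Nat.sqrt_le n
  have hs2 : n < (s + 1) * (s + 1) := Nat.lt_succ_sqrt n
  have hn' : (0 : ℝ) < n := by exact_mod_cast hn0
  have hs' : (0 : ℝ) < s := by
    have : 0 < s := by omega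
    exact_mod_cast this
  have hsn : s ≤ n := by nlinarith
  refine (AA_near (s := s) (by omega) hn0 k hxy).trans (le_trans ?_ (hS s (by omega)))
  apply add_le_add
  · have h2 : (p : ℝ) ^ (n - s) * (p * n / (p : ℝ) ^ n) = p * n / (p : ℝ) ^ s := by
      have h3 : (p : ℝ) ^ n = (p : ℝ) ^ (n - s) * (p : ℝ) ^ s := by
        rw [← pow_add]
        congr 1
        omega
      rw [h3]
      field_simp
    rw [h2]
    have h4 : (p : ℝ) * n / (p : ℝ) ^ s ≤ p * ((s + 1 : ℕ) : ℝ) ^ 2 / (2 : ℝ) ^ s := by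
      have h5 : (n : ℝ) ≤ ((s + 1 : ℕ) : ℝ) ^ 2 := by
        rw [sq]
        exact_mod_cast hs2.le
      gcongr
    calc 2 * π * |(k : ℝ)| * (p * n / (p : ℝ) ^ s)
        ≤ 2 * π * K * (p * ((s + 1 : ℕ) : ℝ) ^ 2 / (2 : ℝ) ^ s) := by gcongr
      _ = 4 * π * K * p * (((s + 1 : ℕ) : ℝ) ^ 2 / (2 : ℝ) ^ (s + 1)) := by
          rw [pow_succ (2 : ℝ)]
          field_simp
          ring
  · rw [div_le_div_iff₀ hn' hs']
    have h6 : (s : ℝ) * s ≤ n := by exact_mod_cast hs1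
    nlinarith

theorem Per_rr {p n : ℕ} (hp : 2 ≤ p) (hn : 0 < n) (a : ℕ) : Per p n ((a : ℝ) / (rr p n : ℕ)) := by
  have hR : (0 : ℝ) < (rr p n : ℕ) := by exact_mod_cast rr_pos hp hn
  have h1 : (rr p n : ℝ) * ((p : ℝ) - 1) + 1 = (p : ℝ) ^ n := by
    have h2 := rr_mul hp n
    have h3 : ((rr p n * (p - 1) + 1 : ℕ) : ℝ) = ((p ^ n : ℕ) : ℝ) := by rw [h2]
    push_cast [Nat.cast_sub (by omega : 1 ≤ p)] at h3
    exact h3
  refine ⟨(p - 1) * a, ?_⟩
  rw [← h1]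
  push_cast
  field_simp
  ring

theorem exists_rep {p : ℕ} (hp : 2 ≤ p) {μ : ProbabilityMeasure TT} (hμ : μ ∈ Inv p) (K : ℕ)
    {δ : ℝ} (hδ : 0 < δ) : ∃ n0 : ℕ, ∀ n ≥ n0, n.Prime → ∃ a : ℕ, Nat.Coprime a (rr p n) ∧
      ∀ k : ℤ, |k| ≤ K → ‖AA p n k ((a : ℝ) / (rr p n : ℕ)) - fc (μ : Measure TT) k‖ ≤ δ := by
  obtain ⟨h, hh, x, hx0, hx, hxk⟩ := exists_per' hp hμ K (by positivity : 0 < δ / 3)
  obtain ⟨n1, hn1⟩ := AA_close hp K (by positivity : 0 < δ / 3)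
  obtain ⟨n2, hn2⟩ := exists_nat_gt (6 * (h : ℝ) / δ)
  refine ⟨n1 + n2 + p + 1, fun n hn hnp => ?_⟩
  have hn0 : 0 < n := hnp.pos
  have hn' : (0 : ℝ) < n := by exact_mod_cast hn0
  have hp' : (2 : ℝ) ≤ p := by exact_mod_cast hp
  set R := rr p n with hRdef
  have hR : (0 : ℝ) < R := by exact_mod_cast rr_pos hp hn0
  obtain ⟨c, hc, hac⟩ := exists_coprime hp hnp (by omega) ⌊x * R⌋₊
  refine ⟨⌊x * R⌋₊ + c, hac, fun k hk => ?_⟩
  have h1 : |((⌊x * R⌋₊ + c : ℕ) : ℝ) / R - x| ≤ p * n / (p : ℝ) ^ n := by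
    have h2 := Nat.floor_le (mul_nonneg hx0 hR.le)
    have h3 := Nat.lt_floor_add_one (x * R)
    have hc' : (c : ℝ) + 1 ≤ n := by exact_mod_cast hc
    have hc0 : (0 : ℝ) ≤ c := Nat.cast_nonneg c
    have h4 : |((⌊x * R⌋₊ + c : ℕ) : ℝ) - x * R| ≤ n := by
      push_cast
      rw [abs_le]
      constructor <;> linarith
    have h5 : ((⌊x * R⌋₊ + c : ℕ) : ℝ) / R - x = (((⌊x * R⌋₊ + c : ℕ) : ℝ) - x * R) / R := by
      field_simp
    rw [h5, abs_div, abs_of_pos hR, div_le_div_iff₀ hR (by positivity)]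
    have h6 : (p : ℝ) ^ n ≤ p * R := by
      have h7 : p ^ n ≤ p * R := by
        have h8 : R * (p - 1) + 1 = p ^ n := rr_mul hp n
        have h9 : 0 < R := rr_pos hp hn0
        obtain ⟨d, hd⟩ : ∃ d, p = d + 1 := ⟨p - 1, by omega⟩
        have h10 : p - 1 = d := by omega
        have h11 : p * R = (d + 1) * R := by rw [← hd]
        rw [h10] at h8
        rw [← h8, h11]
        nlinarith
      exact_mod_cast h7
    calc |((⌊x * R⌋₊ + c : ℕ) : ℝ) - x * R| * (p : ℝ) ^ n ≤ n * (p * R) := by gcongr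
      _ = p * n * R := by ring
  have h2 := hn1 n (by omega) hn0 _ _ h1 k hk
  have h3 := AA_per hh hn0 hx k
  have h4 : 2 * (h : ℝ) / n ≤ δ / 3 := by
    have h5 : (n2 : ℝ) ≤ n := by
      have : n2 ≤ n := by omega
      exact_mod_cast this
    rw [div_le_iff₀ hn']
    rw [div_lt_iff₀ hδ] at hn2
    nlinarith
  calc ‖AA p n k (((⌊x * R⌋₊ + c : ℕ) : ℝ) / R) - fc (μ : Measure TT) k‖
      = ‖(AA p n k (((⌊x * R⌋₊ + c : ℕ) : ℝ) / R) - AA p n k x) + (AA p n k x - AA p h k x) +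
          (AA p h k x - fc (μ : Measure TT) k)‖ := by
        congr 1
        ring
    _ ≤ δ / 3 + δ / 3 + δ / 3 := by
        refine (norm_add_le _ _).trans (add_le_add ((norm_add_le _ _).trans
          (add_le_add h2 (h3.trans h4))) (hxk k hk))
    _ = δ := by ring

/-- multiplication of the points with denominator `R` -/
theorem AA_mul_mod {p n R a b m : ℕ} (hR : 0 < R) (h : a * m ≡ b [MOD R]) (k : ℤ) :
    AA p n (k * m) ((a : ℝ) / R) = AA p n k ((b : ℝ) / R) := by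
  have hR' : (0 : ℝ) < R := by exact_mod_cast hR
  obtain ⟨t, ht⟩ := (Nat.modEq_iff_dvd.mp h)
  have h1 : (a : ℝ) * m = b - R * t := by
    have h2 : (a : ℤ) * m = b - R * t := by
      push_cast at ht
      linarith
    exact_mod_cast h2
  unfold AA
  congr 1
  refine Finset.sum_congr rfl fun i _ => ?_
  have h3 : ((k * m : ℤ) : ℝ) * ((p : ℝ) ^ i * ((a : ℝ) / R)) =
      k * ((p : ℝ) ^ i * ((b : ℝ) / R)) + ((-(k * (p : ℤ) ^ i * t) : ℤ) : ℝ) := by
    have h4 : ((k * m : ℤ) : ℝ) * ((p : ℝ) ^ i * ((a : ℝ) / R)) =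
        k * (p : ℝ) ^ i * ((a : ℝ) * m) / R := by
      push_cast
      ring
    rw [h4, h1]
    push_cast
    field_simp
    ring
  rw [h3, ee_add_int]

/-- Near every invariant measure there is one with an image near any other invariant measure, the
multiplier being a large prime in a given residue class. -/
theorem exists_orbit {p : ℕ} (hp : 2 ≤ p) {μ ν : ProbabilityMeasure TT} (hμ : μ ∈ Inv p)
    (hν : ν ∈ Inv p) (K K' : ℕ) {δ δ' : ℝ} (hδ : 0 < δ) (hδ' : 0 < δ') {D c : ℕ} (hD : 0 < D)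
    (hc : Nat.Coprime c D) (N : ℕ) :
    ∃ κ ∈ Inv p, (∀ k : ℤ, |k| ≤ K → ‖fc (κ : Measure TT) k - fc (μ : Measure TT) k‖ ≤ δ) ∧
      ∃ l : ℕ, N ≤ l ∧ l.Prime ∧ l ≡ c [MOD D] ∧
        ∀ k : ℤ, |k| ≤ K' → ‖fc (img l κ : Measure TT) k - fc (ν : Measure TT) k‖ ≤ δ' := by
  obtain ⟨n1, hn1⟩ := exists_rep hp hμ K hδ
  obtain ⟨n2, hn2⟩ := exists_rep hp hν K' hδ'
  obtain ⟨n, hn, hnp⟩ := Nat.exists_infinite_primes (n1 + n2 + p + D + 1)
  have hn0 : 0 < n := hnp.pos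
  obtain ⟨a, ha, hak⟩ := hn1 n (by omega) hnp
  obtain ⟨b, hb, hbk⟩ := hn2 n (by omega) hnp
  have hR := rr_pos hp hn0
  have hRD : Nat.Coprime (rr p n) D := coprime_rr hp hnp (by omega) (by omega) hD
  have hR1 : 1 < rr p n := by
    unfold rr
    calc 1 < n := hnp.one_lt
      _ = ∑ i ∈ Finset.range n, 1 := by simp
      _ ≤ ∑ i ∈ Finset.range n, p ^ i := Finset.sum_le_sum fun i _ => Nat.one_le_pow _ _ (by omega)
  obtain ⟨a', _, ha'⟩ := Nat.exists_mul_mod_eq_one_of_coprime ha hR1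
  have h1 : a * a' ≡ 1 [MOD rr p n] := by
    unfold Nat.ModEq
    rw [ha', Nat.mod_eq_of_lt hR1]
  have ha'c : Nat.Coprime a' (rr p n) := by
    have h2 : Nat.gcd (a * a') (rr p n) = Nat.gcd 1 (rr p n) := Nat.ModEq.gcd_eq h1
    rw [Nat.gcd_one_left] at h2
    exact Nat.Coprime.coprime_mul_left h2
  obtain ⟨m, hm1, hm2⟩ := Nat.chineseRemainder hRD (a' * b) c
  have hmc : Nat.Coprime m (rr p n * D) := by
    apply Nat.Coprime.mul_right
    · have h2 : Nat.gcd m (rr p n) = Nat.gcd (a' * b) (rr p n) := Nat.ModEq.gcd_eq hm1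
      have h3 : Nat.Coprime (a' * b) (rr p n) := Nat.Coprime.mul_left ha'c hb
      unfold Nat.Coprime at h3 ⊢
      rw [h2, h3]
    · have h2 : Nat.gcd m D = Nat.gcd c D := Nat.ModEq.gcd_eq hm2
      unfold Nat.Coprime at hc ⊢
      rw [h2, hc]
  obtain ⟨l, hlN, hl, hlm⟩ := Nat.forall_exists_prime_gt_and_modEq N (Nat.mul_ne_zero hR.ne' hD.ne') hmc
  have hl1 : l ≡ a' * b [MOD rr p n] := (hlm.of_mul_right D).trans hm1
  have hl2 : l ≡ c [MOD D] := (hlm.of_mul_left (rr p n)).trans hm2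
  have hmod : a * l ≡ b [MOD rr p n] := by
    calc a * l ≡ a * (a' * b) [MOD rr p n] := hl1.mul_left a
      _ = a * a' * b := by ring
      _ ≡ 1 * b [MOD rr p n] := h1.mul_right b
      _ = b := one_mul b
  refine ⟨cyc p n hn0.ne' ((a : ℝ) / (rr p n : ℕ)), cyc_mem_Inv _ (Per_rr hp hn0 a),
    fun k hk => ?_, l, hlN.le, hl, hl2, fun k hk => ?_⟩
  · rw [fc_cyc]
    exact hak k hk
  · rw [fc_img, fc_cyc, AA_mul_mod hR hmod]
    exact hbk k hk

/-- Near every invariant measure there is one fixed by a power of `x ↦ Q x`. -/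
theorem exists_recurrent {p : ℕ} (hp : 2 ≤ p) {μ : ProbabilityMeasure TT} (hμ : μ ∈ Inv p) (K : ℕ)
    {δ : ℝ} (hδ : 0 < δ) {Q : ℕ} (hQ : 0 < Q) :
    ∃ κ ∈ Inv p, (∀ k : ℤ, |k| ≤ K → ‖fc (κ : Measure TT) k - fc (μ : Measure TT) k‖ ≤ δ) ∧
      ∃ g : ℕ, 0 < g ∧ ∀ (k : ℤ) (j : ℕ), fc (κ : Measure TT) (k * ((Q : ℤ) ^ g) ^ j) =
        fc (κ : Measure TT) k := by
  obtain ⟨n1, hn1⟩ := exists_rep hp hμ K hδ
  obtain ⟨n, hn, hnp⟩ := Nat.exists_infinite_primes (n1 + Q + p + 1)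
  have hn0 : 0 < n := hnp.pos
  obtain ⟨a, ha, hak⟩ := hn1 n (by omega) hnp
  have hR := rr_pos hp hn0
  have hRQ : Nat.Coprime (rr p n) Q := coprime_rr hp hnp (by omega) (by omega) hQ
  have hmod : Q ^ (rr p n).totient ≡ 1 [MOD rr p n] := Nat.ModEq.pow_totient hRQ.symm
  refine ⟨cyc p n hn0.ne' ((a : ℝ) / (rr p n : ℕ)), cyc_mem_Inv _ (Per_rr hp hn0 a),
    fun k hk => ?_, (rr p n).totient, Nat.totient_pos.mpr hR, fun k j => ?_⟩
  · rw [fc_cyc]
    exact hak k hk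
  · induction j with
    | zero => simp
    | succ j ih =>
      rw [pow_succ, ← mul_assoc, fc_cyc]
      rw [fc_cyc, fc_cyc] at ih
      rw [fc_cyc, ← ih]
      have h1 : a * Q ^ (rr p n).totient ≡ a [MOD rr p n] := by
        have h2 := hmod.mul_left a
        rwa [mul_one] at h2
      have h3 := AA_mul_mod (p := p) (n := n) hR h1 (k * ((Q : ℤ) ^ (rr p n).totient) ^ j)
      push_cast at h3
      exact h3

end Pool.Agent.K3h9.GM
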