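import Pool.Agent.K3h9.GM.Count

/-!
The frequencies `k p^o Q^n` are distinct modulo powers of `p`.
-/

set_option autoImplicit false

open MeasureTheory Filter Topology Set
open scoped ENNReal NNReal Real

namespace Pool.Agent.K3h9.GM

theorem val_mono {r a b : ℕ} (hr : r.Prime) (hb : b ≠ 0) (h : a ∣ b) :
    padicValNat r a ≤ padicValNat r b := by
  have := Fact.mk hr
  exact (padicValNat_dvd_iff_le hb).mp (pow_padicValNat_dvd.trans h)

theorem val_bound {r Q : ℕ} (hr : r.Prime) (hQ : 2 ≤ Q) (hrQ : ¬ r ∣ Q) :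
    ∃ c : ℕ, ∀ d, d ≠ 0 → padicValNat r (Q ^ d - 1) ≤ c + padicValNat r d := by
  have := Fact.mk hr
  have hpos : ∀ {A d : ℕ}, 2 ≤ A → d ≠ 0 → A ^ d - 1 ≠ 0 := by
    intro A d hA hd
    have : A ≤ A ^ d := Nat.le_self_pow hd A
    omega
  have hdvd : ∀ d f : ℕ, Q ^ d - 1 ∣ Q ^ (f * d) - 1 := by
    intro d f
    rw [mul_comm, pow_mul]
    exact Nat.sub_one_dvd_pow_sub_one _ _
  rcases hr.eq_two_or_odd' with rfl | hodd
  · refine ⟨padicValNat 2 (Q + 1) + padicValNat 2 (Q - 1), fun d hd => ?_⟩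
    have h1 := val_mono hr (hpos hQ (by omega : 2 * d ≠ 0)) (hdvd d 2)
    have h2 := padicValNat.pow_two_sub_pow (x := Q) (y := 1) (n := 2 * d) (by omega)
      (by omega) hrQ (by omega) (even_two_mul d)
    rw [one_pow, padicValNat.mul two_ne_zero hd, padicValNat_self] at h2
    omega
  · have hr1 : r - 1 ≠ 0 := by
      have := hr.two_le
      omega
    have hA : 2 ≤ Q ^ (r - 1) := hQ.trans (Nat.le_self_pow hr1 Q)
    refine ⟨padicValNat r (Q ^ (r - 1) - 1), fun d hd => ?_⟩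
    have h1 := val_mono hr (hpos hQ (Nat.mul_ne_zero hr1 hd)) (hdvd d (r - 1))
    have h3 : r ∣ Q ^ (r - 1) - 1 := by
      have h4 : Q ^ (r - 1) ≡ 1 [MOD r] := by
        have h5 := Nat.ModEq.pow_totient (n := r) (x := Q) ((Nat.Prime.coprime_iff_not_dvd hr).mpr hrQ).symm
        rwa [Nat.totient_prime hr] at h5
      exact (Nat.modEq_iff_dvd' (by omega)).mp h4.symm
    have h2 := padicValNat.pow_sub_pow (p := r) (x := Q ^ (r - 1)) (y := 1) hodd (by omega) h3
      (fun h => hrQ (hr.dvd_of_dvd_pow h)) hd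
    rw [one_pow, ← pow_mul] at h2
    omega

theorem val_lt {r a w : ℕ} (hr : r.Prime) (ha : a ≠ 0) (h : a < r ^ w) : padicValNat r a < w := by
  have := Fact.mk hr
  have h1 : r ^ padicValNat r a ≤ a := Nat.le_of_dvd (Nat.pos_of_ne_zero ha) pow_padicValNat_dvd
  exact (Nat.pow_lt_pow_iff_right hr.one_lt).mp (h1.trans_lt h)

theorem inj_mod {p Q r : ℕ} (hp : 2 ≤ p) (hr : r.Prime) (hrp : r ∣ p) (hQ : 2 ≤ Q) (hrQ : ¬ r ∣ Q)
    (L K : ℕ) (hL : 0 < L) : ∃ C : ℕ, ∀ J k o : ℕ, 1 ≤ k → k ≤ K → o < L → ∀ n < 2 ^ J, ∀ n' < n,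
      (k * p ^ o * Q ^ n') % (p ^ L) ^ (J + C) ≠ (k * p ^ o * Q ^ n) % (p ^ L) ^ (J + C) := by
  have := Fact.mk hr
  obtain ⟨c, hc⟩ := val_bound hr hQ hrQ
  refine ⟨K * p ^ L + c, fun J k o hk hkK ho n hn n' hn' heq => ?_⟩
  have hp0 : 0 < p := by omega
  obtain ⟨d, hd0, rfl⟩ : ∃ d, 0 < d ∧ n = n' + d := ⟨n - n', by omega, by omega⟩
  have ha : k * p ^ o ≠ 0 := by positivity
  have hQn : Q ^ n' ≠ 0 := by positivity
  have hQd : Q ^ d - 1 ≠ 0 := by
    have : Q ≤ Q ^ d := Nat.le_self_pow hd0.ne' Q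
    omega
  have h1 : (p ^ L) ^ (J + (K * p ^ L + c)) ∣ k * p ^ o * Q ^ (n' + d) - k * p ^ o * Q ^ n' := by
    apply (Nat.modEq_iff_dvd' _).mp heq
    exact Nat.mul_le_mul_left _ (Nat.pow_le_pow_right (by omega) (by omega))
  have h2 : k * p ^ o * Q ^ (n' + d) - k * p ^ o * Q ^ n' = k * p ^ o * Q ^ n' * (Q ^ d - 1) := by
    rw [Nat.mul_sub, pow_add, mul_one, ← mul_assoc]
  rw [h2] at h1
  have h3 : r ^ (J + (K * p ^ L + c)) ∣ k * p ^ o * Q ^ n' * (Q ^ d - 1) :=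
    (pow_dvd_pow_of_dvd (hrp.trans (dvd_pow_self p hL.ne')) _).trans h1
  have h4 := (padicValNat_dvd_iff_le (mul_ne_zero (mul_ne_zero ha hQn) hQd)).mp h3
  rw [padicValNat.mul (mul_ne_zero ha hQn) hQd, padicValNat.mul ha hQn,
    padicValNat.eq_zero_of_not_dvd (fun h => hrQ (hr.dvd_of_dvd_pow h) : ¬ r ∣ Q ^ n'), add_zero] at h4
  have h5 : padicValNat r (k * p ^ o) < K * p ^ L := by
    apply val_lt hr ha
    refine lt_of_le_of_lt ?_ (Nat.lt_pow_self hr.one_lt)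
    exact Nat.mul_le_mul hkK (Nat.pow_le_pow_right hp0 ho.le)
  have h6 : padicValNat r d < J := by
    apply val_lt hr hd0.ne'
    calc d < 2 ^ J := by omega
      _ ≤ r ^ J := Nat.pow_le_pow_left hr.two_le J
  have h7 := hc d hd0.ne'
  omega

theorem ff_mod {P J : ℕ} (hP : 0 < P) (a : ℕ) : ff P J ((a % P ^ J : ℕ) : ℝ) = ff P J a := by
  have h1 := ff_add (J := J) hP ((a % P ^ J : ℕ) : ℝ) ((a / P ^ J : ℕ) : ℤ)
  rw [← h1]
  congr 1
  have h2 := Nat.mod_add_div a (P ^ J)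
  generalize a / P ^ J = d at h2 ⊢
  calc ((a % P ^ J : ℕ) : ℝ) + (P : ℝ) ^ J * ((d : ℤ) : ℝ) =
      ((a % P ^ J + P ^ J * d : ℕ) : ℝ) := by
        push_cast
        ring
    _ = a := by rw [h2]

theorem ff_neg (P J : ℕ) (x : ℝ) : ff P J (-x) = ff P J x := by
  unfold ff
  refine Finset.prod_congr rfl fun i _ => ?_
  rw [neg_div, gg_neg]

/-- Near every invariant measure there is one which is equidistributed by most powers of `Q`. -/
theorem exists_beta {p : ℕ} (hp : 2 ≤ p) {μ : ProbabilityMeasure TT} (hμ : μ ∈ Inv p) (K0 : ℕ)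
    {δ : ℝ} (hδ : 0 < δ) {Q r : ℕ} (hr : r.Prime) (hrp : r ∣ p) (hQ : 2 ≤ Q) (hrQ : ¬ r ∣ Q)
    (K : ℕ) {η : ℝ} (hη : 0 < η) (N0 : ℕ) :
    ∃ β ∈ Inv p, (∀ k : ℤ, |k| ≤ K0 → ‖fc (β : Measure TT) k - fc (μ : Measure TT) k‖ ≤ δ) ∧
      ∃ X, N0 ≤ X ∧ 0 < X ∧ ∃ B : Finset ℕ, (B.card : ℝ) ≤ η * X ∧
        ∀ n < X, n ∉ B → ∀ k : ℤ, k ≠ 0 → |k| ≤ K → ‖fc (β : Measure TT) (k * (Q : ℤ) ^ n)‖ < η := by
  classical
  obtain ⟨h, hh0, x, hx, hxk⟩ := exists_per hp hμ K0 (by positivity : 0 < δ / 3)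
  have hhr : (0 : ℝ) < h := by exact_mod_cast hh0
  obtain ⟨l, hl⟩ := exists_nat_gt (6 * π * K0 / δ)
  have hl0 : 0 < l := by
    have h1 : 0 ≤ 6 * π * K0 / δ := by positivity
    have h2 : (0 : ℝ) < l := by linarith
    exact_mod_cast h2
  set L := h * l with hLdef
  have hL : 0 < L := Nat.mul_pos hh0 hl0
  have hL' : (0 : ℝ) < L := by exact_mod_cast hL
  have hLl : (l : ℝ) ≤ L := by
    have : l ≤ L := Nat.le_mul_of_pos_left l hh0
    exact_mod_cast this
  have hLe : 2 * π * K0 / L ≤ δ / 3 := by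
    rw [div_le_iff₀ hL']
    rw [div_lt_iff₀ hδ] at hl
    nlinarith
  set P := p ^ L with hPdef
  have hP : 2 ≤ P := hp.trans (Nat.le_self_pow hL.ne' p)
  obtain ⟨T, hT⟩ := exists_T hP
  obtain ⟨C, hC⟩ := inj_mod hp hr hrp hQ hrQ L K hL
  -- the choice of `J`
  obtain ⟨J, hJ1, hJ2⟩ : ∃ J : ℕ, N0 ≤ 2 ^ J ∧
      (K : ℝ) * (L * ((η ^ T)⁻¹ * (3 / 2 : ℝ) ^ (J + C))) ≤ η * 2 ^ J := by
    set b : ℝ := (K : ℝ) * (L * ((η ^ T)⁻¹ * (3 / 2 : ℝ) ^ C)) / η with hb
    have hb0 : 0 ≤ b := by positivity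
    have h1 : Tendsto (fun J : ℕ => b * (3 / 4 : ℝ) ^ J) atTop (𝓝 (b * 0)) :=
      (tendsto_pow_atTop_nhds_zero_of_lt_one (by norm_num) (by norm_num)).const_mul b
    rw [mul_zero] at h1
    obtain ⟨J, hJ, hJN⟩ := ((h1.eventually_le_const one_pos).and (eventually_ge_atTop N0)).exists
    refine ⟨J, hJN.trans Nat.lt_two_pow_self.le, ?_⟩
    have h2 : (3 / 2 : ℝ) ^ J = (3 / 4 : ℝ) ^ J * 2 ^ J := by
      rw [← mul_pow]
      norm_num
    calc (K : ℝ) * (L * ((η ^ T)⁻¹ * (3 / 2 : ℝ) ^ (J + C)))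
        = (b * (3 / 4 : ℝ) ^ J) * (η * 2 ^ J) := by
          rw [pow_add, h2, hb]
          field_simp
      _ ≤ 1 * (η * 2 ^ J) := by gcongr
      _ = η * 2 ^ J := one_mul _
  -- the choice of `M`
  have hM1 : ∀ᶠ M : ℕ in atTop, ∀ n ∈ Finset.range (2 ^ J), ∀ k ∈ Finset.Icc (-(K : ℤ)) K,
      ∀ o ∈ Finset.range L, ff P (J + C) ((k * (Q : ℤ) ^ n * (p : ℤ) ^ o : ℤ) : ℝ) < η →
        ‖Ph P M (k * (Q : ℤ) ^ n * (p : ℤ) ^ o)‖ < η := by
    rw [Filter.eventually_all_finset]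
    intro n _
    rw [Filter.eventually_all_finset]
    intro k _
    rw [Filter.eventually_all_finset]
    intro o _
    by_cases hlt : ff P (J + C) ((k * (Q : ℤ) ^ n * (p : ℤ) ^ o : ℤ) : ℝ) < η
    · filter_upwards [eventually_Ph hP (J + C) (k * (Q : ℤ) ^ n * (p : ℤ) ^ o) hlt] with M hM _
      exact hM
    · exact Eventually.of_forall fun M h' => absurd h' hlt
  obtain ⟨M0, hM0⟩ := exists_nat_gt (6 * (h : ℝ) / δ)
  obtain ⟨M, hM2, hM3⟩ := (hM1.and (eventually_ge_atTop (M0 + 1))).exists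
  have hM : 0 < M := by omega
  have hM' : (0 : ℝ) < M := by exact_mod_cast hM
  have hMe : 2 * (h : ℝ) / ((L * M : ℕ) : ℝ) ≤ δ / 3 := by
    have h1 : (M : ℝ) ≤ ((L * M : ℕ) : ℝ) := by
      have : M ≤ L * M := Nat.le_mul_of_pos_left M hL
      exact_mod_cast this
    have h2 : (M0 : ℝ) ≤ M := by
      have : M0 ≤ M := by omega
      exact_mod_cast this
    rw [div_le_iff₀ (by linarith)]
    rw [div_lt_iff₀ hδ] at hM0
    nlinarith
  refine ⟨beta p L M hL hM x, beta_mem_Inv hx (Dvd.intro l rfl) hp hL hM, fun k hk => ?_,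
    2 ^ J, hJ1, by positivity, ?_⟩
  · have hkK : |(k : ℝ)| ≤ K0 := by exact_mod_cast hk
    have h1 := beta_near hp hL hM x k
    have h2 := AA_per hh0 (Nat.mul_pos hL hM) hx k
    have h3 := hxk k hk
    have h4 : 2 * π * |(k : ℝ)| / L ≤ δ / 3 := by
      refine le_trans ?_ hLe
      gcongr
    calc ‖fc (beta p L M hL hM x : Measure TT) k - fc (μ : Measure TT) k‖
        = ‖(fc (beta p L M hL hM x : Measure TT) k - AA p (L * M) k x) +
            (AA p (L * M) k x - AA p h k x) + (AA p h k x - fc (μ : Measure TT) k)‖ := by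
          congr 1
          ring
      _ ≤ δ / 3 + δ / 3 + δ / 3 := by
          refine (norm_add_le _ _).trans (add_le_add ((norm_add_le _ _).trans
            (add_le_add (h1.trans h4) (h2.trans hMe))) h3)
      _ = δ := by ring
  · set B : Finset ℕ := (Finset.Icc 1 K).biUnion fun k => (Finset.range L).biUnion fun o =>
      (Finset.range (2 ^ J)).filter fun n : ℕ => η ≤ ff P (J + C) ((k * p ^ o * Q ^ n : ℕ) : ℝ)
      with hB
    refine ⟨B, ?_, fun n hn hnB k hk0 hk => ?_⟩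
    · have h1 : ∀ k ∈ Finset.Icc 1 K, ∀ o ∈ Finset.range L, ((((Finset.range (2 ^ J)).filter
          fun n : ℕ => η ≤ ff P (J + C) ((k * p ^ o * Q ^ n : ℕ) : ℝ)).card : ℕ) : ℝ) ≤
          (η ^ T)⁻¹ * (3 / 2 : ℝ) ^ (J + C) := by
        intro k hk o ho
        rw [Finset.mem_Icc] at hk
        rw [Finset.mem_range] at ho
        refine le_trans ?_ (count_ff hT hη (J + C))
        have h2 : ((Finset.range (2 ^ J)).filter
            fun n : ℕ => η ≤ ff P (J + C) ((k * p ^ o * Q ^ n : ℕ) : ℝ)).card ≤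
            ((Finset.range (P ^ (J + C))).filter fun m : ℕ => η ≤ ff P (J + C) m).card := by
          apply Finset.card_le_card_of_injOn (fun n => (k * p ^ o * Q ^ n) % P ^ (J + C))
          · intro n hn
            rw [Finset.mem_coe, Finset.mem_filter] at hn ⊢
            refine ⟨Finset.mem_range.mpr (Nat.mod_lt _ (by positivity)), ?_⟩
            rw [ff_mod (by omega)]
            exact hn.2
          · intro n hn n' hn' heq
            rw [Finset.mem_coe, Finset.mem_filter, Finset.mem_range] at hn hn'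
            rcases lt_trichotomy n n' with hlt | rfl | hlt
            · exact absurd heq (hC J k o hk.1 hk.2 ho n' hn'.1 n hlt)
            · rfl
            · exact absurd heq.symm (hC J k o hk.1 hk.2 ho n hn.1 n' hlt)
        exact_mod_cast h2
      have h2 : (B.card : ℝ) ≤ ∑ k ∈ Finset.Icc 1 K, ∑ o ∈ Finset.range L,
          ((((Finset.range (2 ^ J)).filter
          fun n : ℕ => η ≤ ff P (J + C) ((k * p ^ o * Q ^ n : ℕ) : ℝ)).card : ℕ) : ℝ) := by
        have h3 : B.card ≤ ∑ k ∈ Finset.Icc 1 K, ∑ o ∈ Finset.range L,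
          ((Finset.range (2 ^ J)).filter
          fun n : ℕ => η ≤ ff P (J + C) ((k * p ^ o * Q ^ n : ℕ) : ℝ)).card :=
          Finset.card_biUnion_le.trans (Finset.sum_le_sum fun k _ => Finset.card_biUnion_le)
        exact_mod_cast h3
      refine h2.trans ((Finset.sum_le_sum fun k hk => Finset.sum_le_sum fun o ho => h1 k hk o ho).trans ?_)
      rw [Finset.sum_const, Finset.sum_const, Nat.card_Icc, Finset.card_range, nsmul_eq_mul,
        nsmul_eq_mul, Nat.add_sub_cancel]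
      push_cast
      exact hJ2
    · apply beta_far hp hL hM
      intro o ho
      apply hM2 n (Finset.mem_range.mpr hn) k (by rw [Finset.mem_Icc]; exact abs_le.mp hk) o
        (Finset.mem_range.mpr ho)
      by_contra hcon
      push Not at hcon
      apply hnB
      rw [hB, Finset.mem_biUnion]
      refine ⟨k.natAbs, ?_, ?_⟩
      · rw [Finset.mem_Icc]
        constructor
        · exact Int.natAbs_pos.mpr hk0
        · have : (k.natAbs : ℤ) ≤ K := by rw [Int.natCast_natAbs]; exact hk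
          exact_mod_cast this
      · rw [Finset.mem_biUnion]
        refine ⟨o, Finset.mem_range.mpr ho, Finset.mem_filter.mpr ⟨Finset.mem_range.mpr hn, ?_⟩⟩
        refine hcon.trans (le_of_eq ?_)
        have hk' := Int.natAbs_eq k
        generalize k.natAbs = a at hk' ⊢
        rcases hk' with rfl | rfl
        · congr 1
          push_cast
          ring
        · rw [← ff_neg]
          congr 1
          push_cast
          ring

end Pool.Agent.K3h9.GM
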